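import Pool.Agent.Y877.SxN
import Pool.Agent.H373R2.T7.Fund

set_option autoImplicit false

/-! Dense sets: sieve counts in short windows, of the length of a power of the sieving limit. -/

namespace Pool.Agent.HP27.PG
open Finset Pool.Agent.H373R2.T7 Pool.Agent.Y877.SX

open Classical in
lemma single_short (δ : ℝ) (hδ : 0 < δ) : ∃ K z0 : ℕ, 1 ≤ K ∧ ∀ G z : ℕ, z0 ≤ z → ∀ y M v : ℕ,
    (∀ p ∈ mid y z, ¬ p ∣ M) →
    (1 - δ) * (G * Vm y z) - √((z : ℝ) ^ K) ≤ (((Icc 1 G).filter (fun g => ∀ p ∈ mid y z, ¬ p ∣ v + M * g)).card : ℝ) := by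
  obtain ⟨K, z0, hK, h0⟩ := sys_fund 1 le_rfl δ hδ
  refine ⟨K, z0, hK, fun G z hz y M v hM => ?_⟩
  obtain ⟨Q, hQd⟩ : ∃ Q : ℕ → ℕ → Prop, ∀ p n, Q p n ↔ (p ∈ mid y z ∧ p ∣ v + M * n) := ⟨_, fun _ _ => Iff.rfl⟩
  have hQ : PerB Q 1 := by
    refine ⟨fun p n => by rw [hQd, hQd, dvd_mod], fun p hp => ?_⟩
    unfold nuB
    by_cases h : p ∈ mid y z
    · refine le_trans (card_le_card ?_) (few_one p v M hp (hM p h))
      intro r hr
      rw [mem_filter] at hr ⊢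
      exact ⟨hr.1, ((hQd _ _).1 hr.2).2⟩
    · rw [filter_false_of_mem (fun r _ => by rw [hQd]; tauto), card_empty]
      exact Nat.zero_le _
  have h1 := h0 (z ^ K) z hz le_rfl _ hQ G
  have e1 : (Icc 1 G).filter (fun n : ℕ => ∀ p ∈ pz z, ¬ Q p n) =
      (Icc 1 G).filter (fun g => ∀ p ∈ mid y z, ¬ p ∣ v + M * g) := by
    apply filter_congr
    intro n _
    constructor
    · intro h p hp hd
      exact h p (mem_pz.2 (mem_mid.1 hp).2) ((hQd _ _).2 ⟨hp, hd⟩)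
    · intro h p _ hq
      obtain ⟨hp, hd⟩ := (hQd _ _).1 hq
      exact h p hp hd
  rw [e1] at h1
  have h2 := (abs_le.1 h1).1
  have h3 : Vm y z ≤ ∏ p ∈ pz z, (1 - (nuB Q p : ℝ) / p) := by
    have : Vm y z = ∏ p ∈ pz z, (if y < p then (1 - 1 / (p : ℝ)) else 1) := by
      unfold Vm mid
      rw [prod_filter]
    rw [this]
    apply prod_le_prod
    · intro p hp
      split_ifs
      · exact (fac_pos (mem_pz.1 hp).2).le
      · exact zero_le_one
    · intro p hp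
      have hpp := (mem_pz.1 hp).2
      have hp0 : (0 : ℝ) < p := by exact_mod_cast hpp.pos
      split_ifs with hy
      · have : (nuB Q p : ℝ) ≤ 1 := by exact_mod_cast hQ.few p hpp
        gcongr
      · have : nuB Q p = 0 := by
          unfold nuB
          rw [filter_false_of_mem, card_empty]
          intro r _ hq
          exact hy (mem_mid.1 ((hQd _ _).1 hq).1).1
        rw [this]
        simp
  have h4 : (G : ℝ) * Vm y z ≤ G * ∏ p ∈ pz z, (1 - (nuB Q p : ℝ) / p) := by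
    gcongr
  push_cast at h2
  by_cases hδ1 : δ ≤ 1
  · have h5 : (1 - δ) * (G * Vm y z) ≤ (1 - δ) * (G * ∏ p ∈ pz z, (1 - (nuB Q p : ℝ) / p)) :=
      mul_le_mul_of_nonneg_left h4 (by linarith)
    linarith
  · have h5 : (1 - δ) * (G * Vm y z) ≤ 0 :=
      mul_nonpos_of_nonpos_of_nonneg (by linarith) (mul_nonneg (Nat.cast_nonneg _) (Vm_pos y z).le)
    have h6 : (0 : ℝ) ≤ (((Icc 1 G).filter (fun g => ∀ p ∈ mid y z, ¬ p ∣ v + M * g)).card : ℝ) := Nat.cast_nonneg _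
    have h7 := Real.sqrt_nonneg ((z : ℝ) ^ K)
    linarith

open Classical in
lemma pair_short (δ : ℝ) (hδ : 0 < δ) : ∃ K z0 : ℕ, 1 ≤ K ∧ ∀ G z : ℕ, z0 ≤ z → ∀ y M v v' D : ℕ,
    (∀ p ∈ mid y z, ¬ p ∣ M) → (∀ p ∈ mid y z, ∀ g, p ∣ v + M * g → p ∣ v' + M * g → p ∣ D) →
    (((Icc 1 G).filter (fun g => (∀ p ∈ mid y z, ¬ p ∣ v + M * g) ∧ (∀ p ∈ mid y z, ¬ p ∣ v' + M * g))).card : ℝ) ≤
      (1 + δ) * (G * (Vm y z ^ 2 * fd y z D)) + √((z : ℝ) ^ K) := by
  obtain ⟨K, z0, hK, h0⟩ := sys_fund 2 (by norm_num) δ hδ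
  refine ⟨K, z0, hK, fun G z hz y M v v' D hM hD => ?_⟩
  obtain ⟨Q, hQd⟩ : ∃ Q : ℕ → ℕ → Prop, ∀ p n, Q p n ↔ (p ∈ mid y z ∧ (p ∣ v + M * n ∨ p ∣ v' + M * n)) :=
    ⟨_, fun _ _ => Iff.rfl⟩
  have hQ : PerB Q 2 := by
    refine ⟨fun p n => by rw [hQd, hQd, dvd_mod, dvd_mod p v'], fun p hp => ?_⟩
    unfold nuB
    by_cases h : p ∈ mid y z
    · have h1 := few_one p v M hp (hM p h)
      have h2 := few_one p v' M hp (hM p h)
      refine le_trans (card_le_card (t := (range p).filter (fun r => p ∣ v + M * r) ∪ (range p).filter (fun r => p ∣ v' + M * r)) ?_) ?_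
      · intro r hr
        rw [mem_filter] at hr
        rw [mem_union, mem_filter, mem_filter]
        rcases ((hQd _ _).1 hr.2).2 with h | h
        · exact Or.inl ⟨hr.1, h⟩
        · exact Or.inr ⟨hr.1, h⟩
      · exact (card_union_le _ _).trans (by omega)
    · rw [filter_false_of_mem (fun r _ => by rw [hQd]; tauto), card_empty]
      exact Nat.zero_le _
  have h1 := h0 (z ^ K) z hz le_rfl _ hQ G
  have e1 : (Icc 1 G).filter (fun n : ℕ => ∀ p ∈ pz z, ¬ Q p n) =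
      (Icc 1 G).filter (fun g => (∀ p ∈ mid y z, ¬ p ∣ v + M * g) ∧ (∀ p ∈ mid y z, ¬ p ∣ v' + M * g)) := by
    apply filter_congr
    intro n _
    constructor
    · intro h
      exact ⟨fun p hp hd => h p (mem_pz.2 (mem_mid.1 hp).2) ((hQd _ _).2 ⟨hp, Or.inl hd⟩),
        fun p hp hd => h p (mem_pz.2 (mem_mid.1 hp).2) ((hQd _ _).2 ⟨hp, Or.inr hd⟩)⟩
    · rintro ⟨ha, hb⟩ p _ hq
      obtain ⟨hp, hd | hd⟩ := (hQd _ _).1 hq
      · exact ha p hp hd
      · exact hb p hp hd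
  rw [e1] at h1
  have h2 := (abs_le.1 h1).2
  have h3 : ∏ p ∈ pz z, (1 - (nuB Q p : ℝ) / p) ≤ Vm y z ^ 2 * fd y z D := by
    have e2 : Vm y z ^ 2 * fd y z D = ∏ p ∈ pz z, ((if y < p then (1 - 1 / (p : ℝ)) ^ 2 else 1) *
        (if y < p ∧ p ∣ D then (1 - 1 / (p : ℝ))⁻¹ else 1)) := by
      unfold Vm fd mid
      rw [filter_filter, prod_filter, prod_filter, ← prod_pow, ← prod_mul_distrib]
      apply prod_congr rfl
      intro p _
      split_ifs <;> simp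
    rw [e2]
    apply prod_le_prod
    · intro p hp
      have hpp := (mem_pz.1 hp).2
      have hp0 : (0 : ℝ) < p := by exact_mod_cast hpp.pos
      have : (nuB Q p : ℝ) / p ≤ 1 := by
        rw [div_le_one hp0]
        exact_mod_cast nuB_le Q p
      linarith
    · intro p hp
      have hpp := (mem_pz.1 hp).2
      have hp0 : (0 : ℝ) < p := by exact_mod_cast hpp.pos
      have hfp := fac_pos hpp
      by_cases hy : y < p
      · have hmid : p ∈ mid y z := mem_mid.2 ⟨hy, mem_pz.1 hp⟩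
        obtain ⟨r1, hr1, hd1⟩ := root_ex p v M hpp (hM p hmid)
        obtain ⟨r2, hr2, hd2⟩ := root_ex p v' M hpp (hM p hmid)
        have m1 : r1 ∈ (range p).filter (fun r => Q p r) := mem_filter.2 ⟨mem_range.2 hr1, (hQd _ _).2 ⟨hmid, Or.inl hd1⟩⟩
        have m2 : r2 ∈ (range p).filter (fun r => Q p r) := mem_filter.2 ⟨mem_range.2 hr2, (hQd _ _).2 ⟨hmid, Or.inr hd2⟩⟩
        rw [if_pos hy]
        by_cases hpD : p ∣ D
        · rw [if_pos ⟨hy, hpD⟩]
          have : (1 : ℝ) ≤ nuB Q p := by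
            have : 0 < nuB Q p := by
              unfold nuB
              exact card_pos.2 ⟨r1, m1⟩
            exact_mod_cast this
          have h5 : (1 - 1 / (p : ℝ)) ^ 2 * (1 - 1 / (p : ℝ))⁻¹ = 1 - 1 / (p : ℝ) := by
            field_simp
          rw [h5]
          gcongr
        · rw [if_neg (fun h => hpD h.2), mul_one]
          have hne : r1 ≠ r2 := by
            intro h
            rw [← h] at hd2
            exact hpD (hD p hmid r1 hd1 hd2)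
          have : (2 : ℝ) ≤ nuB Q p := by
            have : 1 < nuB Q p := by
              unfold nuB
              rw [one_lt_card]
              exact ⟨r1, m1, r2, m2, hne⟩
            exact_mod_cast this
          have h5 : 2 / (p : ℝ) ≤ (nuB Q p : ℝ) / p := by gcongr
          have h6 : (1 - 1 / (p : ℝ)) ^ 2 = 1 - 2 / p + (1 / (p : ℝ)) ^ 2 := by ring
          rw [h6]
          have h7 : 0 ≤ (1 / (p : ℝ)) ^ 2 := by positivity
          linarith
      · rw [if_neg hy, if_neg (fun h => hy h.1)]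
        have : 0 ≤ (nuB Q p : ℝ) / p := by positivity
        linarith
  have h4 : (1 + δ) * ((G : ℝ) * ∏ p ∈ pz z, (1 - (nuB Q p : ℝ) / p)) ≤ (1 + δ) * (G * (Vm y z ^ 2 * fd y z D)) := by
    gcongr
  push_cast at h2
  linarith

open Classical in
/-- almost all shifts in every window of the length of a power of the logarithm keep the expected number of elements free of
medium primes -/
theorem rough_short (A : ℕ) (δ ε : ℝ) (hδ : 0 < δ) (hδ1 : δ ≤ 1) (hε : 0 < ε) (hε1 : ε ≤ 1) : ∃ K0 : ℕ, 1 ≤ K0 ∧ ∀ E : ℕ,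
    ∃ W x0 : ℕ, ∀ x : ℕ, x0 ≤ x → ∀ y z : ℕ, K0 * Real.log (Real.log x) ≤ y → y ≤ z → (z : ℝ) ≤ Real.log x ^ E →
    ∀ S : Finset ℕ, S ⊆ Icc 1 x → (x : ℝ) ≤ S.card * Real.log x ^ A → ∀ M : ℕ, (∀ p ∈ mid y z, ¬ p ∣ M) →
    ∀ v : ℕ → ℕ, (∀ s ∈ S, ∀ t ∈ S, ∀ p w : ℕ, p ∣ v s + w → p ∣ v t + w → p ∣ Nat.dist s t * (s + t)) →
    ∀ G : ℕ, Real.log x ^ W ≤ G →
    (((Icc 1 G).filter (fun g => ((S.filter (fun s => ∀ p ∈ mid y z, ¬ p ∣ v s + M * g)).card : ℝ) <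
      (1 - δ) * (S.card * Vm y z))).card : ℝ) ≤ ε * G := by
  -- the auxiliary constants
  obtain ⟨δ₁, hδ₁⟩ : ∃ δ₁ : ℝ, δ₁ = ε * δ ^ 2 / 64 := ⟨_, rfl⟩
  have hδ₁0 : 0 < δ₁ := by rw [hδ₁]; positivity
  have hδ₁1 : δ₁ ≤ δ / 64 := by
    rw [hδ₁]
    have : ε * δ ^ 2 ≤ 1 * δ := by
      rw [sq]
      apply mul_le_mul hε1 _ (by positivity) zero_le_one
      exact mul_le_of_le_one_left hδ.le hδ1
    linarith
  have hδ₁2 : δ₁ ≤ 1 / 64 := by linarith
  obtain ⟨η, hη⟩ : ∃ η : ℝ, η = δ₁ := ⟨_, rfl⟩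
  have hη0 : 0 < η := by rw [hη]; exact hδ₁0
  have hlη : 0 < Real.log (1 + η) := Real.log_pos (by linarith)
  obtain ⟨K0, hK0⟩ := exists_nat_ge (6 * ((A + 2) / Real.log (1 + η) + 1))
  obtain ⟨Ka, za, hKa, hG1⟩ := single_short δ₁ hδ₁0
  obtain ⟨Kb, zb, hKb, hG2⟩ := pair_short δ₁ hδ₁0
  refine ⟨max K0 6, by omega, fun E => ?_⟩
  obtain ⟨x1, hx1⟩ := Vz_inv_small E
  obtain ⟨x2, hx2⟩ := ev_L' (max (Real.exp (za + zb)) (max (max 4 (Real.exp 1)) (400 / (ε * δ ^ 2))))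
  obtain ⟨x3, hx3⟩ := ev_log' (A + 2) (64 / (ε * δ ^ 2))
  refine ⟨E * (Ka + Kb) + 3, max x1 (max x2 (max x3 1)), fun x hx y z hy hyz hz S hS hSc M hM v hv G hG => ?_⟩
  have b2 : x1 ≤ x := le_trans (le_max_left _ _) hx
  have b3 : x2 ≤ x := le_trans (le_trans (le_max_left _ _) (le_max_right _ _)) hx
  have b4 : x3 ≤ x := le_trans (le_trans (le_trans (le_max_left _ _) (le_max_right _ _)) (le_max_right _ _)) hx
  have b5 : 1 ≤ x := le_trans (le_trans (le_trans (le_max_right _ _) (le_max_right _ _)) (le_max_right _ _)) hx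
  have hL := hx2 x b3
  have hx3' := hx3 x b4
  obtain ⟨L, hLd⟩ : ∃ L, L = Real.log x := ⟨_, rfl⟩
  have hx1' := hx1 x b2
  rw [← hLd] at hL hx3' hy hz hSc hG hx1'
  have hLz : Real.exp (za + zb) ≤ L := (le_max_left _ _).trans hL
  have hL2 : 4 ≤ L := (((le_max_left _ _).trans (le_max_left _ _)).trans (le_max_right _ _)).trans hL
  have hL1 : Real.exp 1 ≤ L := (((le_max_right _ _).trans (le_max_left _ _)).trans (le_max_right _ _)).trans hL
  have hL3 : 400 / (ε * δ ^ 2) ≤ L := ((le_max_right _ _).trans (le_max_right _ _)).trans hL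
  have hL0 : 0 < L := by linarith
  have hLL : 1 ≤ Real.log L := by
    rw [← Real.log_exp 1]
    exact Real.log_le_log (Real.exp_pos 1) hL1
  have hLLz : (za + zb : ℝ) ≤ Real.log L := by
    rw [← Real.log_exp (za + zb : ℝ)]
    exact Real.log_le_log (Real.exp_pos _) hLz
  have hxr : (1 : ℝ) ≤ x := by exact_mod_cast b5
  have hx0 : (0 : ℝ) < x := by linarith
  have hs1 : 1 ≤ √(x : ℝ) := by rw [← Real.sqrt_one]; exact Real.sqrt_le_sqrt hxr
  have hGr : (1 : ℝ) ≤ G := (one_le_pow₀ (by linarith)).trans hG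
  have hG0 : (0 : ℝ) < G := by linarith
  -- K
  have hK : ((max K0 6 : ℕ) : ℝ) * Real.log L ≤ y := hy
  have hK6 : (6 : ℝ) ≤ ((max K0 6 : ℕ) : ℝ) := by exact_mod_cast le_max_right _ _
  have hKK : (K0 : ℝ) ≤ ((max K0 6 : ℕ) : ℝ) := by exact_mod_cast le_max_left _ _
  have hy6 : 6 ≤ y := by
    have : (6 : ℝ) ≤ y := by
      have h := mul_le_mul hK6 hLL zero_le_one (by linarith)
      linarith
    exact_mod_cast this
  have hyza : za + zb ≤ y := by
    have : ((za + zb : ℕ) : ℝ) ≤ y := by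
      push_cast
      have h := mul_le_mul hK6 hLLz (by positivity) (by linarith)
      have h0 : (0 : ℝ) ≤ (za : ℝ) + zb := by positivity
      linarith
    exact_mod_cast this
  have hz1 : 1 ≤ z := by omega
  have hzr : (1 : ℝ) ≤ z := by exact_mod_cast hz1
  -- V
  obtain ⟨V, hV⟩ : ∃ V, V = Vm y z := ⟨_, rfl⟩
  have hV0 : 0 < V := by rw [hV]; exact Vm_pos y z
  have hV1 : V ≤ 1 := by rw [hV]; exact Vm_le y z
  have hVL : 1 / L ≤ V := by
    have h1 := hx1' z hz1 hz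
    have h2 : Vz z ≤ V := by
      rw [Vz_split y z hyz, ← hV]
      exact mul_le_of_le_one_left hV0.le (Vz_le_one y)
    have h3 : L⁻¹ ≤ Vz z := by
      rw [inv_le_comm₀ (by linarith) (Vz_pos z)]
      exact h1
    rw [one_div]
    exact h3.trans h2
  obtain ⟨m, hm⟩ : ∃ m : ℝ, m = (S.card : ℝ) := ⟨_, rfl⟩
  rw [← hm] at hSc
  have hm0 : 0 < m := by
    by_contra h
    push Not at h
    have : m * L ^ A ≤ 0 := mul_nonpos_of_nonpos_of_nonneg h (by positivity)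
    linarith
  -- the error
  obtain ⟨r, hr⟩ : ∃ r : ℝ, r = L ^ (E * (Ka + Kb)) := ⟨_, rfl⟩
  have hr0 : 0 ≤ r := by rw [hr]; positivity
  have hrG : r * L ^ 3 ≤ G := by
    rw [hr, ← pow_add]
    exact hG
  have hsq : ∀ K : ℕ, K ≤ Ka + Kb → √((z : ℝ) ^ K) ≤ r := by
    intro K hKle
    have h1 : (z : ℝ) ^ K ≤ r := by
      calc (z : ℝ) ^ K ≤ (z : ℝ) ^ (Ka + Kb) := pow_le_pow_right₀ hzr hKle
        _ ≤ (L ^ E) ^ (Ka + Kb) := pow_le_pow_left₀ (by linarith) hz _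
        _ = r := by rw [hr, ← pow_mul]
    have h2 : (1 : ℝ) ≤ (z : ℝ) ^ K := one_le_pow₀ hzr
    have h3 : √((z : ℝ) ^ K) ≤ (z : ℝ) ^ K := by
      rw [Real.sqrt_le_left (by positivity), sq]
      exact le_mul_of_one_le_left (by positivity) h2
    exact h3.trans h1
  -- choose n
  obtain ⟨n, hn⟩ : ∃ n, y / 6 = n + 1 := ⟨y / 6 - 1, by omega⟩
  have hn6 : 6 * (n + 1) ≤ y := by omega
  have hpow : 4 * (x : ℝ) ≤ (1 + η) ^ (n + 1) * m := by
    have h1 : 4 * L ^ A ≤ (1 + η) ^ (n + 1) := by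
      have h2 : ((n + 1 : ℕ) : ℝ) ≥ (y : ℝ) / 6 - 1 := by
        have : y < 6 * (n + 1) + 6 := by omega
        have h3 : (y : ℝ) < 6 * ((n + 1 : ℕ) : ℝ) + 6 := by exact_mod_cast this
        linarith
      have h3 : (y : ℝ) / 6 - 1 ≥ (K0 / 6 - 1) * Real.log L := by
        have h0 : (K0 : ℝ) * Real.log L ≤ y := le_trans (mul_le_mul_of_nonneg_right hKK (by linarith)) hK
        have h1 : ((K0 : ℝ) / 6 - 1) * Real.log L = (K0 * Real.log L) / 6 - Real.log L := by ring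
        rw [h1]
        linarith
      have h4 : (A + 2) / Real.log (1 + η) ≤ K0 / 6 - 1 := by linarith
      have h5 : (A + 2 : ℝ) ≤ (K0 / 6 - 1) * Real.log (1 + η) := by
        rwa [div_le_iff₀ hlη] at h4
      have h6 : Real.log (4 * L ^ A) ≤ ((n + 1 : ℕ) : ℝ) * Real.log (1 + η) := by
        rw [Real.log_mul (by norm_num) (by positivity), Real.log_pow]
        have h7 : Real.log 4 ≤ 2 := by
          have : Real.log 4 = 2 * Real.log 2 := by
            rw [show (4 : ℝ) = 2 ^ 2 by norm_num, Real.log_pow]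
            norm_num
          rw [this]
          have := Real.log_two_lt_d9
          linarith
        calc Real.log 4 + A * Real.log L ≤ 2 * Real.log L + A * Real.log L := by linarith
          _ = (A + 2) * Real.log L := by ring
          _ ≤ ((K0 / 6 - 1) * Real.log (1 + η)) * Real.log L := by gcongr
          _ = ((K0 / 6 - 1) * Real.log L) * Real.log (1 + η) := by ring
          _ ≤ ((n + 1 : ℕ) : ℝ) * Real.log (1 + η) := mul_le_mul_of_nonneg_right (by linarith) hlη.le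
      rw [← Real.log_pow] at h6
      exact (Real.log_le_log_iff (by positivity) (by positivity)).1 h6
    calc 4 * (x : ℝ) ≤ 4 * (m * L ^ A) := by gcongr
      _ = 4 * L ^ A * m := by ring
      _ ≤ _ := by gcongr
  obtain ⟨P, hP⟩ : ∃ P : ℕ → ℕ → Prop, ∀ s g, P s g ↔ (∀ p ∈ mid y z, ¬ p ∣ v s + M * g) := ⟨_, fun _ _ => Iff.rfl⟩
  -- the smaller density
  obtain ⟨V₁, hV₁⟩ : ∃ V₁, V₁ = (1 - δ₁) * V := ⟨_, rfl⟩
  have hV₁0 : 0 < V₁ := by rw [hV₁]; exact mul_pos (by linarith) hV0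
  have hV₁1 : V₁ ≤ 1 := by
    rw [hV₁]
    calc (1 - δ₁) * V ≤ 1 * 1 := mul_le_mul (by linarith) hV1 hV0.le zero_le_one
      _ = 1 := one_mul 1
  have hV₁L : 1 / (2 * L) ≤ V₁ := by
    rw [hV₁]
    have e : 1 / (2 * L) = 1 / 2 * (1 / L) := by field_simp
    rw [e]
    exact mul_le_mul (by linarith) hVL (by positivity) (by linarith)
  obtain ⟨F, hF⟩ : ∃ F : ℕ → ℕ → ℝ, ∀ s t, F s t = (1 + 4 * δ₁) * FF y z s t := ⟨_, fun _ _ => rfl⟩
  have c1 : ∀ s ∈ S, G * V₁ - r ≤ (((Icc 1 G).filter (fun g => P s g)).card : ℝ) := by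
    intro s hs
    have h1 := hG1 G z (by omega) y M (v s) hM
    have e1 : (Icc 1 G).filter (fun g => P s g) = (Icc 1 G).filter (fun g => ∀ p ∈ mid y z, ¬ p ∣ v s + M * g) := by
      ext g
      rw [mem_filter, mem_filter, hP]
    rw [e1]
    refine le_trans ?_ h1
    have h2 := hsq Ka (by omega)
    rw [hV₁, ← hV]
    have e2 : (G : ℝ) * ((1 - δ₁) * V) = (1 - δ₁) * (G * V) := by ring
    rw [e2]
    linarith
  have hrat : (1 + δ₁) ≤ (1 + 4 * δ₁) * (1 - δ₁) ^ 2 := by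
    have e : (1 + 4 * δ₁) * (1 - δ₁) ^ 2 = 1 + δ₁ + δ₁ * (1 - 7 * δ₁ + 4 * δ₁ ^ 2) := by ring
    have h1 : 0 ≤ δ₁ * (1 - 7 * δ₁ + 4 * δ₁ ^ 2) := by
      apply mul_nonneg hδ₁0.le
      have := sq_nonneg δ₁
      linarith
    rw [e]
    linarith
  have c2 : ∀ s ∈ S, ∀ t ∈ S.erase s, (((Icc 1 G).filter (fun g => P s g ∧ P t g)).card : ℝ) ≤ G * (V₁ ^ 2 * F s t) + r := by
    intro s hs t ht
    have h1 := hG2 G z (by omega) y M (v s) (v t) (Nat.dist s t * (s + t)) hM (by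
      intro p hp g h1 h2
      exact hv s hs t (mem_of_mem_erase ht) p _ h1 h2)
    have e1 : (Icc 1 G).filter (fun g => P s g ∧ P t g) = (Icc 1 G).filter (fun g => (∀ p ∈ mid y z, ¬ p ∣ v s + M * g) ∧
        (∀ p ∈ mid y z, ¬ p ∣ v t + M * g)) := by
      ext g
      rw [mem_filter, mem_filter, hP, hP]
    rw [e1]
    refine h1.trans ?_
    have h5 : fd y z (Nat.dist s t * (s + t)) ≤ FF y z s t := fd_mul _ _ _ _
    have h7 := hsq Kb (by omega)
    have hFF0 : 0 ≤ FF y z s t := mul_nonneg (fd_one' _ _ _) (fd_one' _ _ _)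
    rw [← hV]
    have h6 : (1 + δ₁) * ((G : ℝ) * (V ^ 2 * fd y z (Nat.dist s t * (s + t)))) ≤ G * (V₁ ^ 2 * F s t) := by
      rw [hV₁, hF]
      calc (1 + δ₁) * ((G : ℝ) * (V ^ 2 * fd y z (Nat.dist s t * (s + t)))) ≤ (1 + δ₁) * ((G : ℝ) * (V ^ 2 * FF y z s t)) := by
            gcongr
        _ = (1 + δ₁) * ((G : ℝ) * (V ^ 2 * FF y z s t)) := rfl
        _ ≤ ((1 + 4 * δ₁) * (1 - δ₁) ^ 2) * ((G : ℝ) * (V ^ 2 * FF y z s t)) :=
            mul_le_mul_of_nonneg_right hrat (by positivity)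
        _ = _ := by ring
    linarith
  have c3 : ∀ s ∈ S, ∑ t ∈ S.erase s, F s t ≤ (1 + 8 * δ₁) * m := fun s hs => by
    have h1 := FF_sum y z n x (by omega) hn6 S hS η hη0 (by rw [← hm]; exact hpow) s hs
    rw [← hm] at h1
    simp only [hF]
    rw [← mul_sum]
    calc (1 + 4 * δ₁) * ∑ t ∈ S.erase s, FF y z s t ≤ (1 + 4 * δ₁) * ((1 + η) * m) :=
          mul_le_mul_of_nonneg_left h1 (by linarith)
      _ = ((1 + 4 * δ₁) * (1 + δ₁)) * m := by rw [hη]; ring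
      _ ≤ (1 + 8 * δ₁) * m := by
          apply mul_le_mul_of_nonneg_right _ hm0.le
          nlinarith
  have key := cheb S (Icc 1 G) P V₁ (8 * δ₁) (δ / 2) r m G F hV₁0 hV₁1 (by linarith) hm.symm (by simp) hr0 c1 c2 c3
  obtain ⟨cnt, hcnt⟩ : ∃ cnt : ℝ, cnt = (((Icc 1 G).filter (fun g => ((S.filter (fun s => P s g)).card : ℝ) <
    (1 - δ / 2) * (m * V₁))).card : ℝ) := ⟨_, rfl⟩
  rw [← hcnt] at key
  have hsub : (((Icc 1 G).filter (fun g => ((S.filter (fun s => ∀ p ∈ mid y z, ¬ p ∣ v s + M * g)).card : ℝ) <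
      (1 - δ) * (S.card * Vm y z))).card : ℝ) ≤ cnt := by
    rw [hcnt]
    have h0 : (Icc 1 G).filter (fun g => ((S.filter (fun s => ∀ p ∈ mid y z, ¬ p ∣ v s + M * g)).card : ℝ) <
      (1 - δ) * (S.card * Vm y z)) ⊆ (Icc 1 G).filter (fun g => ((S.filter (fun s => P s g)).card : ℝ) <
        (1 - δ / 2) * (m * V₁)) := by
      intro g hg
      rw [mem_filter] at hg ⊢
      refine ⟨hg.1, ?_⟩
      have e3 : S.filter (fun s => P s g) = S.filter (fun s => ∀ p ∈ mid y z, ¬ p ∣ v s + M * g) := by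
        ext s
        rw [mem_filter, mem_filter, hP]
      rw [e3]
      refine lt_of_lt_of_le hg.2 ?_
      rw [← hm, ← hV, hV₁]
      have e4 : (1 - δ / 2) * (m * ((1 - δ₁) * V)) = ((1 - δ / 2) * (1 - δ₁)) * (m * V) := by ring
      rw [e4]
      apply mul_le_mul_of_nonneg_right _ (by positivity)
      nlinarith
    exact_mod_cast card_le_card h0
  refine hsub.trans ?_
  have hcnt0 : 0 ≤ cnt := by rw [hcnt]; exact Nat.cast_nonneg _
  -- conclude
  have hmV : 0 < m * V₁ := by positivity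
  have hV2 : 1 / (4 * L ^ 2) ≤ V₁ ^ 2 := by
    have := pow_le_pow_left₀ (by positivity) hV₁L 2
    rw [div_pow, one_pow, mul_pow] at this
    norm_num at this
    norm_num
    exact this
  have hεδ : 0 < ε * δ ^ 2 := by positivity
  have k1 : m * G ≤ ε * δ ^ 2 / 16 * (G * (m * V₁) ^ 2) := by
    have h2 : 64 * L ^ (A + 2) ≤ ε * δ ^ 2 * x := by
      rw [div_mul_eq_mul_div, div_le_iff₀ hεδ] at hx3'
      have h5 : √(x : ℝ) ≤ x := by
        calc √(x : ℝ) = √(x : ℝ) * 1 := (mul_one _).symm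
          _ ≤ √(x : ℝ) * √(x : ℝ) := mul_le_mul_of_nonneg_left hs1 (Real.sqrt_nonneg _)
          _ = x := Real.mul_self_sqrt hx0.le
      calc 64 * L ^ (A + 2) ≤ √(x : ℝ) * (ε * δ ^ 2) := hx3'
        _ ≤ x * (ε * δ ^ 2) := mul_le_mul_of_nonneg_right h5 hεδ.le
        _ = _ := by ring
    have h3 : 1 ≤ ε * δ ^ 2 / 16 * (m * V₁ ^ 2) := by
      have h5 : (x : ℝ) / L ^ A ≤ m := by
        rw [div_le_iff₀ (by positivity)]
        exact hSc
      calc (1 : ℝ) = (64 * L ^ (A + 2)) * (1 / (64 * L ^ (A + 2))) := by field_simp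
        _ ≤ (ε * δ ^ 2 * x) * (1 / (64 * L ^ (A + 2))) := by gcongr
        _ = ε * δ ^ 2 / 16 * ((x / L ^ A) * (1 / (4 * L ^ 2))) := by
            rw [pow_add]
            field_simp
            norm_num
        _ ≤ ε * δ ^ 2 / 16 * (m * V₁ ^ 2) := by gcongr
    calc m * G = m * G * 1 := by ring
      _ ≤ m * G * (ε * δ ^ 2 / 16 * (m * V₁ ^ 2)) := by gcongr
      _ = _ := by ring
  have k2 : 3 * (m ^ 2 * r) ≤ ε * δ ^ 2 / 16 * (G * (m * V₁) ^ 2) := by
    have h2 : r ≤ G / L ^ 3 := by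
      rw [le_div_iff₀ (by positivity)]
      exact hrG
    have h3 : 192 / L ≤ ε * δ ^ 2 := by
      rw [div_le_iff₀ hL0]
      rw [div_le_iff₀ hεδ] at hL3
      linarith
    calc 3 * (m ^ 2 * r) ≤ 3 * (m ^ 2 * (G / L ^ 3)) := by gcongr
      _ = (192 / L) / 16 * (G * m ^ 2 * (1 / (4 * L ^ 2))) := by
          field_simp
          norm_num
      _ ≤ (ε * δ ^ 2) / 16 * (G * m ^ 2 * V₁ ^ 2) := by gcongr
      _ = _ := by ring
  have k3 : cnt * (δ / 2 * (m * V₁)) ^ 2 ≤ ε * G * (δ / 2 * (m * V₁)) ^ 2 := by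
    refine key.trans ?_
    have h1 : 8 * δ₁ * (G * (m * V₁) ^ 2) = ε * δ ^ 2 / 8 * (G * (m * V₁) ^ 2) := by rw [hδ₁]; ring
    have h2 : ε * G * (δ / 2 * (m * V₁)) ^ 2 = ε * δ ^ 2 / 8 * (G * (m * V₁) ^ 2) + ε * δ ^ 2 / 16 * (G * (m * V₁) ^ 2) +
      ε * δ ^ 2 / 16 * (G * (m * V₁) ^ 2) := by ring
    rw [h1, h2]
    linarith
  exact le_of_mul_le_mul_right k3 (by positivity)

end Pool.Agent.HP27.PG
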