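import Pool.Agent.HP27.EN.F
import Pool.Agent.HP27.CL.A

set_option autoImplicit false

/-! The model for one fixed set of primes, and all windows around a random number with small collision probability. -/

namespace Pool.Agent.HP27.PG
open Finset
open Pool.Agent.H373R2.T7
open Pool.Agent.HP25.OS (dual)
open Pool.Agent.HP27.EN (Em EL one_vm near_fam coll)
open Pool.Agent.HP27.CL (ev)

/-- the discrepancy between the von Mangoldt function and its model at `v - s`, `s` in `S` -/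
noncomputable def dis (z : ℕ) (S : Finset ℕ) (v : ℤ) : ℝ := ∑ s ∈ S, (lamI (v - s) - lamzI z (v - s))

theorem one_S (q : ℕ) (hq : 1 ≤ q) (F W U : ℕ) : ∃ B : ℕ, ∀ E : ℕ, ∃ K₀ : ℕ, ∀ N : ℕ, K₀ ≤ N → ∀ (Ω : Finset ℕ) (p : ℕ → ℝ),
    EL q F W N Ω p → ∀ z : ℕ, Real.log N ^ B ≤ z → (z : ℝ) ≤ Real.log N ^ E → ∀ S : Finset ℕ, S ⊆ Icc 1 N →
    ∑ v ∈ Ω, p v * |dis z S v| ≤ N / Real.log N ^ U := by
  classical
  obtain ⟨B, hB⟩ := one_vm (ι := ℕ) q hq F W U
  refine ⟨B, fun E => ?_⟩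
  obtain ⟨K₀, hK₀⟩ := hB E
  refine ⟨K₀, fun N hN Ω p hL z hz1 hz2 S hS => ?_⟩
  obtain ⟨hp0, hE⟩ := hL
  have h := dual (s := Ω) (p := p) N (N / Real.log N ^ U) (fun i n => lamI ((i : ℤ) + (-1) * (n : ℤ)) - lamzI z ((i : ℤ) + (-1) * (n : ℤ)))
    (fun G' hG' => hK₀ N hN Ω p (fun v => (v : ℤ)) hE z hz1 hz2 N le_rfl (-1) (Or.inr rfl) G' hG') 1 zero_le_one
    (fun n => if n ∈ S then 1 else 0) (fun n _ => by split_ifs <;> simp)
  rw [one_mul] at h
  refine le_trans (le_of_eq ?_) h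
  apply sum_congr rfl
  intro v _
  congr 2
  unfold dis
  have e : ∑ n ∈ Icc 1 N, (if n ∈ S then (1 : ℝ) else 0) * (lamI ((v : ℤ) + (-1) * (n : ℤ)) - lamzI z ((v : ℤ) + (-1) * (n : ℤ))) =
      ∑ n ∈ (Icc 1 N).filter (fun n => n ∈ S), (lamI ((v : ℤ) + (-1) * (n : ℤ)) - lamzI z ((v : ℤ) + (-1) * (n : ℤ))) := by
    rw [sum_filter]
    apply sum_congr rfl
    intro n _
    split_ifs
    · rw [one_mul]
    · rw [zero_mul]
  rw [e]
  have e2 : (Icc 1 N).filter (fun n => n ∈ S) = S := by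
    ext n
    rw [mem_filter]
    exact ⟨fun h => h.2, fun h => ⟨hS h, h⟩⟩
  rw [e2]
  apply sum_congr rfl
  intro n _
  have e3 : (v : ℤ) + (-1) * (n : ℤ) = v - n := by ring
  rw [e3]

open Classical in
theorem near_S (q : ℕ) (hq : 1 ≤ q) (κ T R U U1 : ℕ) : ∃ B : ℕ, ∀ E : ℕ, ∃ N₀ : ℕ, ∀ N : ℕ, N₀ ≤ N →
    ∀ z : ℕ, Real.log N ^ B ≤ z → (z : ℝ) ≤ Real.log N ^ E → ∀ S : Finset ℕ, S ⊆ Icc 1 N →
    ∀ (ι : Type) [Fintype ι] (p a : ι → ℝ), (∀ x, 0 ≤ p x) → ∑ x, p x = 1 → (∀ x, 0 ≤ a x ∧ a x ≤ T * N) →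
    N * coll q p a ≤ Real.log N ^ κ →
    ∑ x, (if ∃ v : ℕ, |(v : ℝ) - a x| ≤ Real.log N ^ R ∧ N / Real.log N ^ U1 < |dis z S v| then p x else 0) ≤
      1 / Real.log N ^ U := by
  obtain ⟨F, W', U', hUU, N1, h1⟩ := near_fam 1 (fun _ => q) (fun _ => hq) T κ R U
  obtain ⟨B, hB⟩ := one_S q hq F W' (U1 + U')
  refine ⟨B, fun E => ?_⟩
  obtain ⟨N2, h2⟩ := hB E
  obtain ⟨N3, h3⟩ := ev 1 0
  refine ⟨N1 + N2 + N3 + 1, fun N hN z hz1 hz2 S hS ι _ p a hp0 hp1 ha hcoll => ?_⟩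
  obtain ⟨hl1, -⟩ := h3 N (by omega)
  have hl0 : 0 < Real.log N := by linarith
  have hN0 : (0 : ℝ) < N := by exact_mod_cast (by omega : 0 < N)
  have h4 := h1 N (by omega) (fun m => N / Real.log N ^ U1 < |dis z S ((m 0 : ℕ) : ℤ)|) (fun Ω p' hlaw => by
    have g := h2 N (by omega) (Ω 0) (p' 0) (hlaw 0) z hz1 hz2 S hS
    have hp'0 := (hlaw 0).1
    have e : ∑ m ∈ Fintype.piFinset Ω, (if N / Real.log N ^ U1 < |dis z S ((m 0 : ℕ) : ℤ)| then ∏ i, p' i (m i) else 0) =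
        ∑ v ∈ Ω 0, (if N / Real.log N ^ U1 < |dis z S v| then p' 0 v else 0) := by
      refine sum_nbij' (fun m => m 0) (fun v => fun _ => v) ?_ ?_ ?_ ?_ ?_
      · intro m hm
        exact Fintype.mem_piFinset.1 hm 0
      · intro v hv
        rw [Fintype.mem_piFinset]
        intro i
        rw [Subsingleton.elim i 0]
        exact hv
      · intro m _
        funext i
        rw [Subsingleton.elim i 0]
      · intro v _
        rfl
      · intro m _
        split_ifs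
        · rw [Fin.prod_univ_one]
        · rfl
    rw [e]
    have hQ : 0 < (N : ℝ) / Real.log N ^ U1 := by positivity
    have h5 : (∑ v ∈ Ω 0, (if N / Real.log N ^ U1 < |dis z S v| then p' 0 v else 0)) * (N / Real.log N ^ U1) ≤
        ∑ v ∈ Ω 0, p' 0 v * |dis z S v| := by
      rw [sum_mul]
      apply sum_le_sum
      intro v _
      split_ifs with h
      · exact mul_le_mul_of_nonneg_left h.le (hp'0 v)
      · rw [zero_mul]
        exact mul_nonneg (hp'0 v) (abs_nonneg _)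
    have h6 := h5.trans g
    rw [← le_div_iff₀ hQ] at h6
    refine h6.trans (le_of_eq ?_)
    rw [pow_add]
    field_simp) (fun _ => ι) (fun _ => p) (fun _ => a) (fun _ => hp0) (fun _ => hp1) (fun _ x => by
      obtain ⟨g1, g2⟩ := ha x
      have g3 : 0 ≤ Real.log N ^ R := by positivity
      exact ⟨by linarith, g2⟩) (fun _ => hcoll)
  refine le_trans ?_ h4
  rw [← (Equiv.funUnique (Fin 1) ι).symm.sum_comp]
  apply sum_le_sum
  intro x _
  have e1 : ∏ i : Fin 1, p (((Equiv.funUnique (Fin 1) ι).symm x) i) = p x := by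
    rw [Fin.prod_univ_one]
    rfl
  rw [e1]
  by_cases hx : ∃ v : ℕ, |(v : ℝ) - a x| ≤ Real.log N ^ R ∧ N / Real.log N ^ U1 < |dis z S v|
  · rw [if_pos hx, if_pos]
    obtain ⟨v, g1, g2⟩ := hx
    refine ⟨fun _ => v, fun i => ?_, g2⟩
    have e2 : ((Equiv.funUnique (Fin 1) ι).symm x) i = x := rfl
    rw [e2]
    exact g1
  · rw [if_neg hx]
    split_ifs
    · exact hp0 x
    · exact le_rfl

lemma coll_shift {ι : Type} [Fintype ι] (q : ℕ) (p a : ι → ℝ) (c : ℝ) : coll q p (fun x => a x + c) = coll q p a := by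
  classical
  unfold coll
  apply sum_congr rfl
  intro x _
  apply sum_congr rfl
  intro y _
  have e : ∑ j, (a (x j) + c) - ∑ j, (a (y j) + c) = ∑ j, a (x j) - ∑ j, a (y j) := by
    rw [sum_add_distrib, sum_add_distrib]
    ring
  rw [e]

/-- the multiple of `M` at the place `j` after the last one before `X` -/
noncomputable def mul (M : ℕ) (X : ℝ) (j : ℤ) : ℤ := M * (⌊X / M⌋ + j)

lemma mul_near (M : ℕ) (hM : 1 ≤ M) (X : ℝ) (j : ℤ) : ((mul M X j : ℤ) : ℝ) ≤ X + M * j ∧ X + M * j - M ≤ ((mul M X j : ℤ) : ℝ) := by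
  have hM0 : (0 : ℝ) < M := by exact_mod_cast hM
  unfold mul
  push_cast
  have h1 := Int.floor_le (X / M)
  have h2 := Int.lt_floor_add_one (X / M)
  rw [le_div_iff₀ hM0] at h1
  rw [div_lt_iff₀ hM0] at h2
  constructor <;> nlinarith

open Classical in
/-- all windows around the random number -/
theorem windows (q : ℕ) (hq : 1 ≤ q) (κ T K U U1 : ℕ) (ε : ℝ) (hε : 0 < ε) : ∃ B : ℕ, ∀ E : ℕ, ∃ N₀ : ℕ, ∀ N : ℕ, N₀ ≤ N →
    ∀ z : ℕ, Real.log N ^ B ≤ z → (z : ℝ) ≤ Real.log N ^ E → ∀ S : Finset ℕ, S ⊆ Icc 1 N →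
    ∀ M : ℕ, 1 ≤ M → (M : ℝ) ≤ Real.log N ^ K →
    ∀ (ι : Type) [Fintype ι] (p a : ι → ℝ), (∀ x, 0 ≤ p x) → ∑ x, p x = 1 → (∀ x, 2 * N ≤ a x ∧ a x ≤ T * N) →
    N * coll q p a ≤ Real.log N ^ κ →
    ∑ x, (if ∀ G : ℕ, 1 ≤ G → 2 * (M * G) ≤ N →
      (((Icc (-(G : ℤ)) G).filter (fun j => N / Real.log N ^ U1 < |dis z S (mul M (a x) j)|)).card : ℝ) ≤ ε * G then 0 else p x) ≤
      1 / Real.log N ^ U := by
  obtain ⟨B, hB⟩ := near_S q hq κ (T + 1) K (U + 2) U1
  refine ⟨B, fun E => ?_⟩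
  obtain ⟨N1, h1⟩ := hB E
  obtain ⟨N2, h2⟩ := ev (30 / ε + 4) K
  refine ⟨N1 + N2 + 1, fun N hN z hz1 hz2 S hS M hM1 hM2 ι _ p a hp0 hp1 ha hcoll => ?_⟩
  obtain ⟨hl1, hl2⟩ := h2 N (by omega)
  have hNn : 1 ≤ N := by omega
  have hN0 : (0 : ℝ) < N := by exact_mod_cast (by omega : 0 < N)
  obtain ⟨l, hl⟩ : ∃ l, l = Real.log N := ⟨_, rfl⟩
  have hM0 : (0 : ℝ) < M := by exact_mod_cast hM1
  have hε' : 0 ≤ 30 / ε := by positivity
  -- the probability of a bad place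
  obtain ⟨bad, hbad⟩ : ∃ bad : ι → ℤ → Prop, ∀ x j, bad x j ↔ N / Real.log N ^ U1 < |dis z S (mul M (a x) j)| := ⟨_, fun _ _ => Iff.rfl⟩
  simp only [← hbad]
  have hMN : (M : ℝ) ≤ N := hM2.trans hl2
  have hone : ∀ j : ℤ, |(M : ℝ) * j| ≤ N → ∑ x, (if bad x j then p x else 0) ≤ 1 / l ^ (U + 2) := by
    intro j hj
    rw [abs_le] at hj
    have h3 := h1 N (by omega) z hz1 hz2 S hS ι p (fun x => a x + M * j) hp0 hp1 (fun x => by
      obtain ⟨g1, g2⟩ := ha x
      constructor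
      · linarith [hj.1]
      · push_cast
        linarith [hj.2]) (by rw [coll_shift]; exact hcoll)
    rw [hl]
    refine le_trans (sum_le_sum ?_) h3
    intro x _
    by_cases hb : bad x j
    · rw [if_pos hb, if_pos]
      obtain ⟨m1, m2⟩ := mul_near M hM1 (a x) j
      have g0 : (0 : ℝ) ≤ ((mul M (a x) j : ℤ) : ℝ) := by
        have := (ha x).1
        linarith [hj.1]
      have g1 : 0 ≤ mul M (a x) j := by exact_mod_cast g0
      refine ⟨(mul M (a x) j).toNat, ?_, ?_⟩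
      · have e : (((mul M (a x) j).toNat : ℕ) : ℝ) = ((mul M (a x) j : ℤ) : ℝ) := by
          have := Int.toNat_of_nonneg g1
          exact_mod_cast this
        rw [e]
        refine le_trans ?_ hM2
        rw [abs_le]
        constructor <;> linarith
      · rw [Int.toNat_of_nonneg g1]
        exact (hbad _ _).1 hb
    · rw [if_neg hb]
      split_ifs
      · exact hp0 x
      · exact le_rfl
  rw [← hl] at hl1 hl2 hM2 ⊢
  have hl4 : 4 ≤ l := by linarith
  have hl0 : 0 < l := by linarith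
  -- dyadic windows
  obtain ⟨I, hI⟩ : ∃ I : Finset ℕ, I = (range (Nat.log 2 N + 2)).filter (fun i => M * 2 ^ i ≤ N) := ⟨_, rfl⟩
  have hIcard : (I.card : ℝ) ≤ 3 * l := by
    have h3 : I.card ≤ Nat.log 2 N + 2 := by
      rw [hI]
      exact (card_filter_le _ _).trans (by rw [card_range])
    have h4 : ((2 : ℝ) ^ (Nat.log 2 N)) ≤ N := by exact_mod_cast Nat.pow_log_le_self 2 (by omega)
    have h5 := Real.log_le_log (by positivity) h4
    rw [Real.log_pow, ← hl] at h5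
    have h6 := Real.log_two_gt_d9
    have h7 : (Nat.log 2 N : ℝ) * (1 / 2) ≤ Nat.log 2 N * Real.log 2 := mul_le_mul_of_nonneg_left (by linarith) (Nat.cast_nonneg _)
    have h8 : (I.card : ℝ) ≤ Nat.log 2 N + 2 := by exact_mod_cast h3
    linarith
  obtain ⟨cnt, hcnt⟩ : ∃ cnt : ι → ℕ → ℝ, ∀ x i, cnt x i = ∑ j ∈ Icc (-((2 ^ i : ℕ) : ℤ)) ((2 ^ i : ℕ) : ℤ), (if bad x j then (1 : ℝ) else 0) :=
    ⟨_, fun _ _ => rfl⟩
  have hcnt0 : ∀ x i, 0 ≤ cnt x i := by
    intro x i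
    rw [hcnt]
    apply sum_nonneg
    intro j _
    split_ifs <;> norm_num
  have hpt : ∀ x, (if ∀ G : ℕ, 1 ≤ G → 2 * (M * G) ≤ N →
      (((Icc (-(G : ℤ)) G).filter (fun j => bad x j)).card : ℝ) ≤ ε * G then 0 else p x) ≤
      ∑ i ∈ I, p x * cnt x i / (ε / 2 * 2 ^ i) := by
    intro x
    have hnn : ∀ i, 0 ≤ p x * cnt x i / (ε / 2 * 2 ^ i) := fun i =>
      div_nonneg (mul_nonneg (hp0 x) (hcnt0 x i)) (by positivity)
    split_ifs with h
    · exact sum_nonneg fun i _ => hnn i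
    · push Not at h
      obtain ⟨G, hG1, hG2, hG3⟩ := h
      obtain ⟨i, hi⟩ : ∃ i, i = Nat.log 2 G + 1 := ⟨_, rfl⟩
      have hi1 : G < 2 ^ i := by rw [hi]; exact Nat.lt_pow_succ_log_self (by norm_num) G
      have hi2 : 2 ^ i ≤ 2 * G := by
        rw [hi, pow_succ, mul_comm]
        exact Nat.mul_le_mul_left 2 (Nat.pow_log_le_self 2 (by omega))
      have hGN : G ≤ N := by
        calc G = 1 * G := (one_mul G).symm
          _ ≤ M * G := Nat.mul_le_mul_right _ hM1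
          _ ≤ 2 * (M * G) := by omega
          _ ≤ N := hG2
      have hiI : i ∈ I := by
        rw [hI, mem_filter, mem_range]
        constructor
        · have := Nat.log_mono_right (b := 2) hGN
          omega
        · calc M * 2 ^ i ≤ M * (2 * G) := Nat.mul_le_mul_left _ hi2
            _ = 2 * (M * G) := by ring
            _ ≤ N := hG2
      refine le_trans ?_ (single_le_sum (f := fun i => p x * cnt x i / (ε / 2 * 2 ^ i)) (fun i _ => hnn i) hiI)
      have hi2r : ((2 : ℝ) ^ i) ≤ 2 * G := by exact_mod_cast hi2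
      have hc1 : (((Icc (-(G : ℤ)) G).filter (fun j => bad x j)).card : ℝ) ≤ cnt x i := by
        rw [hcnt, ← sum_filter, sum_const, nsmul_eq_mul, mul_one]
        have : ((Icc (-(G : ℤ)) G).filter (fun j => bad x j)) ⊆
            ((Icc (-((2 ^ i : ℕ) : ℤ)) ((2 ^ i : ℕ) : ℤ)).filter (fun j => bad x j)) := by
          intro j hj
          rw [mem_filter, mem_Icc] at hj ⊢
          have : (G : ℤ) ≤ ((2 ^ i : ℕ) : ℤ) := by exact_mod_cast hi1.le
          refine ⟨⟨by linarith [hj.1.1], by linarith [hj.1.2]⟩, hj.2⟩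
        exact_mod_cast card_le_card this
      have hpos : 0 < ε / 2 * (2 : ℝ) ^ i := by positivity
      rw [le_div_iff₀ hpos]
      apply mul_le_mul_of_nonneg_left _ (hp0 x)
      calc ε / 2 * (2 : ℝ) ^ i ≤ ε / 2 * (2 * G) := mul_le_mul_of_nonneg_left hi2r (by positivity)
        _ = ε * G := by ring
        _ ≤ _ := hG3.le
        _ ≤ cnt x i := hc1
  calc _ ≤ ∑ x, ∑ i ∈ I, p x * cnt x i / (ε / 2 * 2 ^ i) := sum_le_sum fun x _ => hpt x
    _ = ∑ i ∈ I, (∑ j ∈ Icc (-((2 ^ i : ℕ) : ℤ)) ((2 ^ i : ℕ) : ℤ), ∑ x, (if bad x j then p x else 0)) / (ε / 2 * 2 ^ i) := by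
        rw [sum_comm]
        apply sum_congr rfl
        intro i _
        rw [← sum_div]
        congr 1
        rw [sum_comm]
        apply sum_congr rfl
        intro x _
        rw [hcnt, mul_sum]
        apply sum_congr rfl
        intro j _
        split_ifs
        · rw [mul_one]
        · rw [mul_zero]
    _ ≤ ∑ _i ∈ I, 6 / ε * (1 / l ^ (U + 2)) := by
        apply sum_le_sum
        intro i hi
        rw [hI, mem_filter] at hi
        have h3 : ∑ j ∈ Icc (-((2 ^ i : ℕ) : ℤ)) ((2 ^ i : ℕ) : ℤ), ∑ x, (if bad x j then p x else 0) ≤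
            ∑ _j ∈ Icc (-((2 ^ i : ℕ) : ℤ)) ((2 ^ i : ℕ) : ℤ), 1 / l ^ (U + 2) := by
          apply sum_le_sum
          intro j hj
          rw [mem_Icc] at hj
          apply hone
          rw [abs_mul, abs_of_pos hM0]
          have h4 : |(j : ℝ)| ≤ ((2 ^ i : ℕ) : ℝ) := by
            rw [abs_le]
            constructor
            · exact_mod_cast hj.1
            · exact_mod_cast hj.2
          calc (M : ℝ) * |(j : ℝ)| ≤ M * ((2 ^ i : ℕ) : ℝ) := mul_le_mul_of_nonneg_left h4 hM0.le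
            _ ≤ N := by exact_mod_cast hi.2
        rw [sum_const, nsmul_eq_mul, Int.card_Icc] at h3
        have h5 : ∀ k : ℕ, ((k : ℤ) + 1 - -(k : ℤ)).toNat = 2 * k + 1 := fun k => by omega
        rw [h5 (2 ^ i)] at h3
        push_cast at h3
        have h6 : (1 : ℝ) ≤ 2 ^ i := one_le_pow₀ (by norm_num)
        rw [div_le_iff₀ (by positivity)]
        push_cast
        refine h3.trans ?_
        have h7 : 6 / ε * (1 / l ^ (U + 2)) * (ε / 2 * 2 ^ i) = (3 * 2 ^ i) * (1 / l ^ (U + 2)) := by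
          field_simp
          norm_num
        rw [h7]
        apply mul_le_mul_of_nonneg_right (by linarith) (by positivity)
    _ = I.card * (6 / ε * (1 / l ^ (U + 2))) := by rw [sum_const, nsmul_eq_mul]
    _ ≤ (3 * l) * (6 / ε * (1 / l ^ (U + 2))) := mul_le_mul_of_nonneg_right hIcard (by positivity)
    _ = (18 / ε / l) * (1 / l ^ U) := by
        rw [pow_add]
        field_simp
        norm_num
    _ ≤ 1 * (1 / l ^ U) := by
        apply mul_le_mul_of_nonneg_right _ (by positivity)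
        rw [div_le_one hl0]
        have : 18 / ε ≤ 30 / ε := div_le_div_of_nonneg_right (by norm_num) hε.le
        linarith
    _ = 1 / l ^ U := one_mul _

end Pool.Agent.HP27.PG
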