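import Pool.Agent.HP27.PG.D

set_option autoImplicit false

/-! For almost all multiples `n` of a small primorial in all short windows around a random number, `n + d` is prime for the
expected number of elements `d` of an arbitrary dense set of integers without small prime factors. -/

namespace Pool.Agent.HP27.PG.Pos
open Finset
open Pool.Agent.H373R2.T7 Pool.Agent.Y877.SX
open Pool.Agent.HP27.EN (coll)

lemma lamz_eq_pos (y z M s w : ℕ) (hs : ∀ p : ℕ, p.Prime → p ≤ y → ¬ p ∣ s) (hM : ∀ p : ℕ, p.Prime → p ≤ y → p ∣ M) :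
    lamz z (M * w + s) = if ∀ p ∈ mid y z, ¬ p ∣ M * w + s then (Vz z)⁻¹ else 0 := by
  unfold lamz
  have : (∀ p ∈ pz z, ¬ p ∣ M * w + s) ↔ (∀ p ∈ mid y z, ¬ p ∣ M * w + s) := by
    constructor
    · intro h p hp
      exact h p (mem_pz.2 (mem_mid.1 hp).2)
    · intro h p hp hd
      rw [mem_pz] at hp
      by_cases hy : y < p
      · exact h p (mem_mid.2 ⟨hy, hp⟩) hd
      · have h1 : p ∣ M * w := (hM p hp.2 (by omega)).mul_right _
        exact hs p hp.2 (by omega) ((Nat.dvd_add_right h1).1 hd)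
  by_cases h : ∀ p ∈ mid y z, ¬ p ∣ M * w + s
  · rw [if_pos h, if_pos (this.2 h)]
  · rw [if_neg h, if_neg (fun h2 => h (this.1 h2))]

lemma dvd_D_pos (p s t w D : ℕ) (h1 : p ∣ D + s + w) (h2 : p ∣ D + t + w) : p ∣ Nat.dist s t * (s + t) := by
  wlog hst : s ≤ t generalizing s t with H
  · have := H t s h2 h1 (by omega)
    rwa [Nat.dist_comm, add_comm t s] at this
  rw [Nat.dist_eq_sub_of_le hst]
  have h3 : p ∣ (D + t + w) - (D + s + w) := Nat.dvd_sub h2 h1
  have h4 : (D + t + w) - (D + s + w) = t - s := by omega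
  rw [h4] at h3
  exact h3.mul_right _

/-- one number -/
lemma one_num (S : Finset ℕ) (N n y z M w : ℕ) (δ m D E₁ : ℝ) (hδ : 0 < δ) (hm : (S.card : ℝ) = m)
    (hyz : y ≤ z) (hn : n = M * w) (hS0 : ∀ s ∈ S, 1 ≤ s) (hSn : ∀ s ∈ S, n + s ≤ N)
    (hSp : ∀ s ∈ S, ∀ p : ℕ, p.Prime → p ≤ y → ¬ p ∣ s) (hMp : ∀ p : ℕ, p.Prime → p ≤ y → p ∣ M)
    (hdis : |dis z S n| ≤ D) (hD : D ≤ δ * m) (hPP : 2 * √(N : ℝ) * Real.log N ≤ δ * m) (hE : Real.log N ≤ E₁)
    (hrough : (1 - δ) * (m * Vm y z) ≤ ((S.filter (fun s => ∀ p ∈ mid y z, ¬ p ∣ n + s)).card : ℝ)) :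
    (1 - 3 * δ) * (m * (Vz y)⁻¹) ≤ ((S.filter (fun s => (n + s).Prime)).card : ℝ) * E₁ := by
  have hm0 : 0 ≤ m := by rw [← hm]; exact Nat.cast_nonneg _
  have hVy := Vz_pos y
  have hVz := Vz_pos z
  have hVm := Vm_pos y z
  have hVy1 : 1 ≤ (Vz y)⁻¹ := by
    rw [one_le_inv₀ hVy]
    exact Vz_le_one y
  have hsplit := Vz_split y z hyz
  have e1 : dis z S n = ∑ s ∈ S, ArithmeticFunction.vonMangoldt (n + s) -
      (Vz z)⁻¹ * ((S.filter (fun s => ∀ p ∈ mid y z, ¬ p ∣ n + s)).card : ℝ) := by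
    unfold dis
    rw [sum_sub_distrib]
    congr 1
    · apply sum_congr rfl
      intro s hs
      have h1 := hS0 s hs
      have h2 : ((n : ℤ) + (s : ℤ)) = ((n + s : ℕ) : ℤ) := by push_cast; ring
      unfold lamI
      rw [h2, if_pos (by omega), Int.toNat_natCast]
    · have : ∀ s ∈ S, lamzI z ((n : ℤ) + (s : ℤ)) = if ∀ p ∈ mid y z, ¬ p ∣ n + s then (Vz z)⁻¹ else 0 := by
        intro s hs
        have h1 := hS0 s hs
        have h2 : ((n : ℤ) + (s : ℤ)) = ((n + s : ℕ) : ℤ) := by push_cast; ring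
        unfold lamzI
        rw [h2, if_pos (by omega), Int.toNat_natCast]
        have h3 := lamz_eq_pos y z M s w (hSp s hs) hMp
        rw [← hn] at h3
        exact h3
      rw [sum_congr rfl this, ← sum_filter, sum_const, nsmul_eq_mul, mul_comm]
  have h5 : (Vz z)⁻¹ * ((1 - δ) * (m * Vm y z)) = (1 - δ) * (m * (Vz y)⁻¹) := by
    rw [hsplit, mul_inv]
    field_simp
  have h6 := mul_le_mul_of_nonneg_left hrough (inv_pos.2 hVz).le
  have h7 := (abs_le.1 hdis).1
  have h8 : ∑ s ∈ S, (if (n + s).Prime then (0 : ℝ) else ArithmeticFunction.vonMangoldt (n + s)) ≤ δ * m := by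
    rcases Nat.eq_zero_or_pos N with h0 | hN
    · have : S = ∅ := by
        rw [eq_empty_iff_forall_notMem]
        intro s hs
        have := hSn s hs
        have := hS0 s hs
        omega
      rw [this, sum_empty]
      positivity
    have h2 := Chebyshev.psi_sub_theta_le (x := (N : ℝ)) (by exact_mod_cast hN)
    rw [Chebyshev.psi_sub_theta_eq_sum_not_prime, Nat.floor_natCast, sum_filter] at h2
    refine le_trans ?_ (h2.trans hPP)
    have e1 : ∑ s ∈ S, (if (n + s).Prime then (0 : ℝ) else ArithmeticFunction.vonMangoldt (n + s)) =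
        ∑ k ∈ S.image (fun s => n + s), (if ¬ k.Prime then ArithmeticFunction.vonMangoldt k else (0 : ℝ)) := by
      rw [sum_image]
      · apply sum_congr rfl
        intro s _
        by_cases hp : (n + s).Prime
        · rw [if_pos hp, if_neg (not_not.2 hp)]
        · rw [if_neg hp, if_pos hp]
      · intro a _ b _ hab
        simp only at hab
        omega
    rw [e1]
    apply sum_le_sum_of_subset_of_nonneg
    · intro k hk
      rw [mem_image] at hk
      obtain ⟨s, hs, rfl⟩ := hk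
      have h3 := hSn s hs
      have h4 := hS0 s hs
      rw [mem_Ioc]
      omega
    · intro n _ _
      split_ifs
      · exact le_rfl
      · exact ArithmeticFunction.vonMangoldt_nonneg
  have h9 : ∑ s ∈ S, ArithmeticFunction.vonMangoldt (n + s) ≤ ((S.filter (fun s => (n + s).Prime)).card : ℝ) * E₁ +
      ∑ s ∈ S, (if (n + s).Prime then (0 : ℝ) else ArithmeticFunction.vonMangoldt (n + s)) := by
    rw [card_eq_sum_ones, Nat.cast_sum, sum_mul, sum_filter, ← sum_add_distrib]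
    apply sum_le_sum
    intro s hs
    by_cases hp : (n + s).Prime
    · rw [if_pos hp, if_pos hp, ArithmeticFunction.vonMangoldt_apply_prime hp, Nat.cast_one, one_mul, add_zero]
      refine le_trans (Real.log_le_log (by exact_mod_cast hp.pos) ?_) hE
      exact_mod_cast hSn s hs
    · rw [if_neg hp, if_neg hp, zero_add]
  rw [e1] at h7
  rw [h5] at h6
  have h10 : δ * m * 1 ≤ δ * m * (Vz y)⁻¹ := mul_le_mul_of_nonneg_left hVy1 (by positivity)
  have h11 : (1 - 3 * δ) * (m * (Vz y)⁻¹) = (1 - δ) * (m * (Vz y)⁻¹) - δ * m * (Vz y)⁻¹ - δ * m * (Vz y)⁻¹ := by ring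
  rw [h11]
  linarith

open Classical in
theorem final (A : ℕ) (ε : ℝ) (hε : 0 < ε) (hε1 : ε ≤ 1) : ∃ K₀ : ℕ, ∀ q : ℕ, 1 ≤ q → ∀ κ T K₁ U : ℕ, ∃ W N₀ : ℕ,
    ∀ N : ℕ, N₀ ≤ N → ∀ y : ℕ, K₀ * Real.log (Real.log N) ≤ y → y ≤ K₁ * Real.log (Real.log N) →
    ∀ S : Finset ℕ, S ⊆ Icc 1 N → (∀ s ∈ S, ∀ p : ℕ, p.Prime → p ≤ y → ¬ p ∣ s) → (N : ℝ) ≤ S.card * Real.log N ^ A →
    ∀ Y : ℕ, √(N : ℝ) ≤ Y → Y ≤ N →
    ∀ (ι : Type) [Fintype ι] (p a : ι → ℝ), (∀ x, 0 ≤ p x) → ∑ x, p x = 1 → (∀ x, 2 * Y ≤ a x ∧ a x ≤ T * N) →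
    N * coll q p a ≤ Real.log N ^ κ →
    ∑ x, (if ∀ G : ℕ, Real.log N ^ W ≤ G → 2 * (primorial y * G) ≤ Y →
      (((Icc (-(G : ℤ)) G).filter (fun j => ((S.filter (fun s : ℕ => (mul (primorial y) (a x) j + s).toNat.Prime)).card : ℝ) <
        (1 - ε) * (S.card / (Vz y * Real.log N)))).card : ℝ) ≤ ε * G then 0 else p x) ≤
      1 / Real.log N ^ U := by
  obtain ⟨δ, hδd⟩ : ∃ δ, δ = ε / 8 := ⟨_, rfl⟩
  have hδ : 0 < δ := by rw [hδd]; positivity
  have hδ8 : δ ≤ 1 / 8 := by rw [hδd]; linarith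
  obtain ⟨K₀, hK₀1, hr⟩ := rough_short A δ (ε / 6) hδ (by linarith) (by linarith) (by linarith)
  refine ⟨K₀, fun q hq κ T K₁ U => ?_⟩
  obtain ⟨B, hB⟩ := windows q hq κ T (2 * K₁) U (A + 1) (ε / 2) (by linarith)
  obtain ⟨W, n1, hn1⟩ := hr (B + 3)
  obtain ⟨n2, hn2⟩ := hB (B + 3)
  obtain ⟨n3, hn3⟩ := ev_L' (max (max (Real.exp 1) (2 / δ)) (max (max 4 K₁) (max (2 * (K₁ + 1)) ((T + 1 : ℝ) / δ))))
  obtain ⟨n4, hn4⟩ := ev_log' (A + 1 + 2 * K₁) (8 * ((T : ℝ) + 2) / δ)
  refine ⟨W, n1 + n2 + n3 + n4 + 2, fun N hN y hy1 hy2 S hS hSp hSA Y hY1 hY2 ι _ p a hp0 hp1 ha hcoll => ?_⟩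
  have hL := hn3 N (by omega)
  have hs := hn4 N (by omega)
  have hr1 := hn1 N (by omega)
  have hw1 := hn2 N (by omega)
  obtain ⟨L, hLd⟩ : ∃ L, L = Real.log N := ⟨_, rfl⟩
  rw [← hLd] at hL hs hr1 hw1 hy1 hy2 hSA hcoll ⊢
  have hL1 : Real.exp 1 ≤ L := ((le_max_left _ _).trans (le_max_left _ _)).trans hL
  have hL2 : 2 / δ ≤ L := ((le_max_right _ _).trans (le_max_left _ _)).trans hL
  have hL3 : 4 ≤ L := ((le_max_left _ _).trans ((le_max_left _ _).trans (le_max_right _ _))).trans hL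
  have hL4 : (K₁ : ℝ) ≤ L := ((le_max_right _ _).trans ((le_max_left _ _).trans (le_max_right _ _))).trans hL
  have hL6 : (T + 1 : ℝ) / δ ≤ L := ((le_max_right _ _).trans ((le_max_right _ _).trans (le_max_right _ _))).trans hL
  have hL0 : 0 < L := by linarith
  have hL1' : 1 ≤ L := by linarith
  have hN1 : 1 ≤ N := by omega
  have hNr : (1 : ℝ) ≤ N := by exact_mod_cast hN1
  have hN0 : (0 : ℝ) < N := by linarith
  have hsn : √(N : ℝ) * √(N : ℝ) = N := Real.mul_self_sqrt hN0.le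
  have hsn0 : 0 < √(N : ℝ) := Real.sqrt_pos.2 hN0
  have hlL : Real.log L ≤ L - 1 := Real.log_le_sub_one_of_pos hL0
  -- z
  obtain ⟨z, hzd⟩ : ∃ z, z = ⌈L ^ (B + 2)⌉₊ := ⟨_, rfl⟩
  have hz1 : L ^ (B + 2) ≤ z := by rw [hzd]; exact Nat.le_ceil _
  have hz1' : L ^ B ≤ z := (pow_le_pow_right₀ hL1' (by omega)).trans hz1
  have hz2 : (z : ℝ) ≤ L ^ (B + 3) := by
    have h1 : (z : ℝ) < L ^ (B + 2) + 1 := by rw [hzd]; exact Nat.ceil_lt_add_one (by positivity)
    have h2 : L ^ (B + 3) = L ^ (B + 2) * L := pow_succ _ _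
    have h3 : 1 ≤ L ^ (B + 2) := one_le_pow₀ hL1'
    have h4 : L ^ (B + 2) * 2 ≤ L ^ (B + 2) * L := mul_le_mul_of_nonneg_left (by linarith) (by linarith)
    rw [h2]
    linarith
  have hyz : y ≤ z := by
    have hy3 : (y : ℝ) ≤ z := by
      calc (y : ℝ) ≤ K₁ * Real.log L := hy2
        _ ≤ L * L := mul_le_mul hL4 (by linarith) (by
            rw [← Real.log_one]; exact Real.log_le_log one_pos hL1') hL0.le
        _ = L ^ 2 := by ring
        _ ≤ L ^ (B + 2) := pow_le_pow_right₀ hL1' (by omega)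
        _ ≤ z := hz1
    exact_mod_cast hy3
  -- M
  obtain ⟨M, hMd⟩ : ∃ M, M = primorial y := ⟨_, rfl⟩
  have hML : (M : ℝ) ≤ L ^ (2 * K₁) := by rw [hMd]; exact primorial_le_log K₁ y L hL1 hy2
  have hM1 : 1 ≤ M := by rw [hMd]; exact primorial_pos y
  rw [← hMd]
  have hM0 : (0 : ℝ) < M := by exact_mod_cast hM1
  have hMp : ∀ p : ℕ, p.Prime → p ≤ y → p ∣ M := fun p hp hpy => by
    rw [hMd]
    exact hp.dvd_primorial_iff.2 hpy
  have hMq : ∀ p ∈ mid y z, ¬ p ∣ M := fun p hp hd => by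
    rw [hMd, (mem_mid.1 hp).2.2.dvd_primorial_iff] at hd
    have := (mem_mid.1 hp).1
    omega
  -- the large powers
  have hT0 : (0 : ℝ) ≤ T := Nat.cast_nonneg T
  have hbig : ∀ k : ℕ, k ≤ A + 1 + 2 * K₁ → 8 * ((T : ℝ) + 2) / δ * L ^ k ≤ √(N : ℝ) := by
    intro k hk
    refine le_trans (mul_le_mul_of_nonneg_left (pow_le_pow_right₀ hL1' hk) ?_) hs
    positivity
  have h8δ : 8 ≤ 8 * ((T : ℝ) + 2) / δ := by
    rw [le_div_iff₀ hδ]
    nlinarith
  have hs1 : 1 ≤ √(N : ℝ) := by rw [← Real.sqrt_one]; exact Real.sqrt_le_sqrt hNr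
  have hMY : 8 * (M : ℝ) ≤ Y := by
    have h1 := hbig (2 * K₁) (by omega)
    have h2 : 8 * L ^ (2 * K₁) ≤ √(N : ℝ) := (mul_le_mul_of_nonneg_right h8δ (by positivity)).trans h1
    linarith
  have hMYn : M ≤ Y := by
    have : (M : ℝ) ≤ Y := by linarith
    exact_mod_cast this
  have hYNr : (Y : ℝ) ≤ N := by exact_mod_cast hY2
  obtain ⟨m, hm⟩ : ∃ m : ℝ, m = (S.card : ℝ) := ⟨_, rfl⟩
  have hm0 : 0 < m := by
    rw [hm]
    by_contra h
    push Not at h
    have : (S.card : ℝ) * L ^ A ≤ 0 := mul_nonpos_of_nonpos_of_nonneg h (by positivity)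
    linarith
  have hkey := hw1 z hz1' hz2 S hS M hM1 hML Y hMYn hY2 ι p a hp0 hp1 ha hcoll
  refine le_trans (sum_le_sum ?_) hkey
  intro x _
  obtain ⟨ha1, ha2⟩ := ha x
  have himp : (∀ G : ℕ, 1 ≤ G → 2 * (M * G) ≤ Y →
      (((Icc (-(G : ℤ)) G).filter (fun j => N / L ^ (A + 1) < |dis z S (mul M (a x) j)|)).card : ℝ) ≤ ε / 2 * G) →
      ∀ G : ℕ, L ^ W ≤ G → 2 * (M * G) ≤ Y →
      (((Icc (-(G : ℤ)) G).filter (fun j => ((S.filter (fun s : ℕ => (mul M (a x) j + s).toNat.Prime)).card : ℝ) <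
        (1 - ε) * (S.card / (Vz y * L)))).card : ℝ) ≤ ε * G := by
    intro hg G hGW hGN
    have hG1r : (1 : ℝ) ≤ G := (one_le_pow₀ hL1').trans hGW
    have hG1 : 1 ≤ G := by exact_mod_cast hG1r
    have hb1 := hg G hG1 hGN
    have hGNr : 2 * ((M : ℝ) * G) ≤ Y := by exact_mod_cast hGN
    -- the place
    obtain ⟨f, hf⟩ : ∃ f : ℤ, f = ⌊a x / M⌋ := ⟨_, rfl⟩
    have hf1 := mul_near M hM1 (a x) 0
    have hmul : ∀ j, mul M (a x) j = M * (f + j) := fun j => by unfold mul; rw [hf]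
    rw [hmul 0, add_zero] at hf1
    push_cast at hf1
    obtain ⟨hf2, hf3⟩ := hf1
    have hfG : (0 : ℝ) < M * (f - G - 1) := by
      have : (M : ℝ) * (f - G - 1) = M * f - M * G - M := by ring
      rw [this]
      linarith
    have hfG' : (0 : ℤ) ≤ f - G - 1 := by
      by_contra hcon
      push Not at hcon
      have h1 : ((f - G - 1 : ℤ) : ℝ) < 0 := by exact_mod_cast hcon
      push_cast at h1
      have := mul_neg_of_pos_of_neg hM0 h1
      linarith
    obtain ⟨g0, hg0⟩ : ∃ g0 : ℕ, (g0 : ℤ) = f - G - 1 := ⟨(f - G - 1).toNat, Int.toNat_of_nonneg hfG'⟩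
    have hplace : ∀ j : ℤ, j ∈ Icc (-(G : ℤ)) G → (j + G + 1).toNat ∈ Icc 1 (2 * G + 1) ∧
        mul M (a x) j = ((M * (g0 + (j + G + 1).toNat) : ℕ) : ℤ) ∧ M * (g0 + (j + G + 1).toNat) ≤ (T + 1) * N := by
      intro j hj
      rw [mem_Icc] at hj
      have e1 : (((j + G + 1).toNat : ℕ) : ℤ) = j + G + 1 := Int.toNat_of_nonneg (by omega)
      refine ⟨?_, ?_, ?_⟩
      · rw [mem_Icc]
        omega
      · rw [hmul]
        push_cast
        rw [hg0, e1]
        ring
      · have h1 : (((M * (g0 + (j + G + 1).toNat) : ℕ) : ℤ) : ℝ) ≤ (((T + 1) * N : ℕ) : ℝ) := by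
          have e3 : ((M * (g0 + (j + G + 1).toNat) : ℕ) : ℤ) = M * (f + j) := by
            push_cast
            rw [hg0, e1]
            ring
          rw [e3]
          push_cast
          have h2 : (j : ℝ) ≤ G := by exact_mod_cast hj.2
          have h3 : (M : ℝ) * j ≤ M * G := mul_le_mul_of_nonneg_left h2 hM0.le
          have h4 : (M : ℝ) * (f + j) = M * f + M * j := by ring
          rw [h4]
          linarith
        exact_mod_cast h1
    -- the rough numbers
    have hb2 := hr1 y z hy1 hyz hz2 S hS hSA M hMq (fun s => M * g0 + s) (by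
      intro s _ t _ p w h1 h2
      exact dvd_D_pos p s t w (M * g0) h1 h2) (2 * G + 1) (by
        push_cast
        linarith)
    rw [← hm] at hb2
    -- inclusion
    obtain ⟨R, hR⟩ : ∃ R : Finset ℕ, R = (Icc 1 (2 * G + 1)).filter (fun g => ((S.filter (fun s => ∀ p ∈ mid y z,
      ¬ p ∣ (M * g0 + s) + M * g)).card : ℝ) < (1 - δ) * (m * Vm y z)) := ⟨_, rfl⟩
    have hb2' : (R.card : ℝ) ≤ ε / 6 * (2 * G + 1) := by
      rw [hR]
      push_cast at hb2
      exact hb2
    have hsub : (Icc (-(G : ℤ)) G).filter (fun j => ((S.filter (fun s : ℕ => (mul M (a x) j + s).toNat.Prime)).card : ℝ) <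
        (1 - ε) * (S.card / (Vz y * L))) ⊆
        (Icc (-(G : ℤ)) G).filter (fun j => N / L ^ (A + 1) < |dis z S (mul M (a x) j)|) ∪
        (Icc (-(G : ℤ)) G).filter (fun j : ℤ => (j + G + 1).toNat ∈ R) := by
      intro j hj
      rw [mem_filter] at hj
      obtain ⟨hj1, hj2⟩ := hj
      rw [mem_union, mem_filter, mem_filter]
      by_contra hcon
      push Not at hcon
      obtain ⟨hc1, hc2⟩ := hcon
      have hd := hc1 hj1
      have hrr := hc2 hj1
      obtain ⟨q1, q2, q3⟩ := hplace j hj1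
      obtain ⟨g, hgd⟩ : ∃ g, g = (j + G + 1).toNat := ⟨_, rfl⟩
      rw [← hgd] at q1 q2 q3 hrr
      obtain ⟨n, hn⟩ : ∃ n, n = M * (g0 + g) := ⟨_, rfl⟩
      rw [← hn] at q2 q3
      have hs0 : ∀ s ∈ S, 1 ≤ s := fun s hs => (mem_Icc.1 (hS hs)).1
      have hsn' : ∀ s ∈ S, n + s ≤ (T + 2) * N := fun s hs => by
        have h1 := (mem_Icc.1 (hS hs)).2
        have h2 : (T + 2) * N = (T + 1) * N + N := by ring
        omega
      rw [hR, mem_filter] at hrr
      push Not at hrr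
      have hrr' := hrr q1
      have hrough : (1 - δ) * (m * Vm y z) ≤ ((S.filter (fun s => ∀ p ∈ mid y z, ¬ p ∣ n + s)).card : ℝ) := by
        refine hrr'.trans (le_of_eq ?_)
        congr 2
        apply filter_congr
        intro s hs
        have e : n + s = (M * g0 + s) + M * g := by
          rw [hn, mul_add]
          omega
        rw [e]
      have hTN1 : (1 : ℝ) ≤ (((T + 2) * N : ℕ) : ℝ) := by
        exact_mod_cast Nat.mul_pos (by omega : 0 < T + 2) (by omega : 0 < N)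
      have hlT : Real.log (((T + 2) * N : ℕ) : ℝ) ≤ (1 + δ) * L := by
        push_cast
        rw [Real.log_mul (by positivity) hN0.ne', ← hLd]
        have h1 : Real.log ((T : ℝ) + 2) ≤ T + 1 := by
          have := Real.log_le_sub_one_of_pos (show (0 : ℝ) < T + 2 by positivity)
          linarith
        rw [div_le_iff₀ hδ] at hL6
        linarith
      have hPP : 2 * √(((T + 2) * N : ℕ) : ℝ) * Real.log (((T + 2) * N : ℕ) : ℝ) ≤ δ * m := by
        have h1 : √(((T + 2) * N : ℕ) : ℝ) ≤ ((T : ℝ) + 2) * √(N : ℝ) := by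
          push_cast
          rw [Real.sqrt_mul (by positivity)]
          apply mul_le_mul_of_nonneg_right _ hsn0.le
          rw [Real.sqrt_le_left (by positivity)]
          nlinarith
        have h2 : Real.log (((T + 2) * N : ℕ) : ℝ) ≤ 2 * L := hlT.trans (by nlinarith)
        have h3 : 0 ≤ Real.log (((T + 2) * N : ℕ) : ℝ) := Real.log_nonneg hTN1
        have h4 : 2 * √(((T + 2) * N : ℕ) : ℝ) * Real.log (((T + 2) * N : ℕ) : ℝ) ≤ 2 * (((T : ℝ) + 2) * √(N : ℝ)) * (2 * L) :=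
          mul_le_mul (by linarith) h2 h3 (by positivity)
        refine h4.trans ?_
        have h5 := hbig (A + 1) (by omega)
        rw [div_mul_eq_mul_div, div_le_iff₀ hδ] at h5
        have h6 : (8 * ((T : ℝ) + 2) * L ^ (A + 1)) * √(N : ℝ) ≤ δ * N := by
          calc (8 * ((T : ℝ) + 2) * L ^ (A + 1)) * √(N : ℝ) ≤ (√(N : ℝ) * δ) * √(N : ℝ) := mul_le_mul_of_nonneg_right h5 hsn0.le
            _ = δ * (√(N : ℝ) * √(N : ℝ)) := by ring
            _ = δ * N := by rw [hsn]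
        have h7 : δ * (N : ℝ) ≤ δ * (m * L ^ A) := mul_le_mul_of_nonneg_left (by rw [hm]; exact hSA) hδ.le
        have h8 : (2 * (((T : ℝ) + 2) * √(N : ℝ)) * (2 * L)) * L ^ A ≤ (δ * m) * L ^ A := by
          calc (2 * (((T : ℝ) + 2) * √(N : ℝ)) * (2 * L)) * L ^ A = (4 * ((T : ℝ) + 2) * L ^ (A + 1)) * √(N : ℝ) := by
                rw [pow_succ L A]; ring
            _ ≤ (8 * ((T : ℝ) + 2) * L ^ (A + 1)) * √(N : ℝ) := by
                apply mul_le_mul_of_nonneg_right _ hsn0.le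
                apply mul_le_mul_of_nonneg_right _ (by positivity)
                linarith
            _ ≤ δ * N := h6
            _ ≤ _ := h7
            _ = (δ * m) * L ^ A := by ring
        exact le_of_mul_le_mul_right h8 (by positivity)
      have hD : (N : ℝ) / L ^ (A + 1) ≤ δ * m := by
        rw [div_le_iff₀ (by positivity)]
        have h1 : 1 ≤ δ * L := by
          rw [div_le_iff₀ hδ] at hL2
          linarith
        calc (N : ℝ) ≤ m * L ^ A := by rw [hm]; exact hSA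
          _ = (m * L ^ A) * 1 := (mul_one _).symm
          _ ≤ (m * L ^ A) * (δ * L) := mul_le_mul_of_nonneg_left h1 (by positivity)
          _ = δ * m * L ^ (A + 1) := by rw [pow_succ L A]; ring
      have hnum := one_num S ((T + 2) * N) n y z M (g0 + g) δ m (N / L ^ (A + 1)) ((1 + δ) * L) hδ hm.symm hyz hn hs0 hsn'
        hSp hMp (by rw [← q2]; exact hd) hD hPP hlT hrough
      -- compare
      obtain ⟨c, hc⟩ : ∃ c : ℝ, c = ((S.filter (fun s => (n + s).Prime)).card : ℝ) := ⟨_, rfl⟩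
      have hc0 : 0 ≤ c := by rw [hc]; exact Nat.cast_nonneg _
      rw [← hc] at hnum
      have h1 : c = ((S.filter (fun s : ℕ => (mul M (a x) j + s).toNat.Prime)).card : ℝ) := by
        rw [hc]
        congr 2
        apply filter_congr
        intro s _
        rw [q2]
        have e : (((n : ℕ) : ℤ) + (s : ℤ)).toNat = n + s := by omega
        rw [e]
      rw [← h1] at hj2
      have hVy := Vz_pos y
      have h3 : c * ((1 + δ) * L) < ((1 - ε) * (S.card / (Vz y * L))) * ((1 + δ) * L) :=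
        mul_lt_mul_of_pos_right hj2 (by positivity)
      have h4 : ((1 - ε) * (S.card / (Vz y * L))) * ((1 + δ) * L) = ((1 - ε) * (1 + δ)) * (S.card * (Vz y)⁻¹) := by
        field_simp
      have h5 : ((1 - ε) * (1 + δ)) * (S.card * (Vz y)⁻¹) ≤ (1 - 3 * δ) * (S.card * (Vz y)⁻¹) := by
        apply mul_le_mul_of_nonneg_right _ (by positivity)
        have h15 : (1 - ε) * (1 + δ) = 1 - ε + δ - ε * δ := by ring
        rw [h15]
        have h17 : ε = 8 * δ := by rw [hδd]; ring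
        rw [h17]
        have : 0 ≤ 8 * δ * δ := by positivity
        linarith
      rw [← hm] at h3 h4 h5
      linarith
    have hcard2 : (((Icc (-(G : ℤ)) G).filter (fun j : ℤ => (j + G + 1).toNat ∈ R)).card : ℝ) ≤ R.card := by
      have : ((Icc (-(G : ℤ)) G).filter (fun j : ℤ => (j + G + 1).toNat ∈ R)).card ≤ R.card := by
        apply card_le_card_of_injOn (fun j : ℤ => (j + G + 1).toNat)
        · intro j hj
          exact (mem_filter.1 hj).2
        · intro j hj k hk hjk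
          have h1 := mem_Icc.1 (mem_filter.1 hj).1
          have h2 := mem_Icc.1 (mem_filter.1 hk).1
          simp only at hjk
          omega
      exact_mod_cast this
    have hcard := card_le_card hsub
    have hun := card_union_le ((Icc (-(G : ℤ)) G).filter (fun j => N / L ^ (A + 1) < |dis z S (mul M (a x) j)|))
      ((Icc (-(G : ℤ)) G).filter (fun j : ℤ => (j + G + 1).toNat ∈ R))
    have hfin : (((Icc (-(G : ℤ)) G).filter (fun j => ((S.filter (fun s : ℕ => (mul M (a x) j + s).toNat.Prime)).card : ℝ) <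
        (1 - ε) * (S.card / (Vz y * L)))).card : ℝ) ≤
        (((Icc (-(G : ℤ)) G).filter (fun j => N / L ^ (A + 1) < |dis z S (mul M (a x) j)|)).card : ℝ) +
        (((Icc (-(G : ℤ)) G).filter (fun j : ℤ => (j + G + 1).toNat ∈ R)).card : ℝ) := by
      exact_mod_cast hcard.trans hun
    have h7 : ε / 6 * (2 * (G : ℝ) + 1) ≤ ε / 2 * G := by
      have e : ε / 2 * G = ε / 6 * (3 * G) := by ring
      rw [e]
      apply mul_le_mul_of_nonneg_left _ (by positivity)
      linarith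
    linarith
  by_cases h : ∀ G : ℕ, 1 ≤ G → 2 * (M * G) ≤ Y →
      (((Icc (-(G : ℤ)) G).filter (fun j => N / L ^ (A + 1) < |dis z S (mul M (a x) j)|)).card : ℝ) ≤ ε / 2 * G
  · rw [if_pos (himp h), if_pos h]
  · rw [if_neg h]
    split_ifs
    · exact hp0 x
    · exact le_rfl

end Pool.Agent.HP27.PG.Pos
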