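import Pool.Agent.HP27.PG.E
import Pool.Agent.H373R2.T7.SingLow

set_option autoImplicit false

/-! Primes `p` for which `d (p - 1) + 1` is coprime to a small primorial, uniformly in `d`. -/

namespace Pool.Agent.HP27.PG.Pos
open Finset
open Pool.Agent.H373R2.T7

lemma dvd_shift (y d : ℕ) (p : ℕ) (hp : p.Prime) (hpy : p ≤ y) (n : ℕ) (hn : 1 ≤ n) (h : p ∣ d * (n - 1) + 1) :
    (p : ℤ) ∣ (n : ℤ) + ((d : ℤ) ^ ((y + 2).factorial - 1) - (d : ℤ) ^ (y + 2).factorial) := by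
  obtain ⟨F, hF⟩ : ∃ F, F = (y + 2).factorial := ⟨_, rfl⟩
  rw [← hF]
  have hF1 : 1 ≤ F := by rw [hF]; exact Nat.factorial_pos _
  have hpd : ¬ p ∣ d := fun hd => by
    have h1 : p ∣ d * (n - 1) := hd.mul_right _
    have h2 := (Nat.dvd_add_right h1).1 h
    exact hp.one_lt.ne' (Nat.dvd_one.1 h2)
  have hpp : Fact p.Prime := ⟨hp⟩
  have hdvd : p - 1 ∣ F := by
    rw [hF]
    have := hp.two_le
    exact Nat.dvd_factorial (by omega) (by omega)
  obtain ⟨m, hm⟩ := hdvd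
  have hz : ((d : ZMod p)) ≠ 0 := fun h0 => hpd ((ZMod.natCast_eq_zero_iff d p).1 h0)
  have h1 : ((d : ZMod p)) ^ F = 1 := by
    rw [hm, pow_mul, ZMod.pow_card_sub_one_eq_one hz, one_pow]
  have h2 : ((d : ZMod p)) * ((n : ZMod p) - 1) + 1 = 0 := by
    have := (ZMod.natCast_eq_zero_iff (d * (n - 1) + 1) p).2 h
    push_cast [Nat.cast_sub hn] at this
    exact this
  have h3 : ((d : ZMod p)) * ((n : ZMod p) + ((d : ZMod p) ^ (F - 1) - (d : ZMod p) ^ F)) = 0 := by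
    have e : ((d : ZMod p)) * (d : ZMod p) ^ (F - 1) = (d : ZMod p) ^ F := by
      rw [← pow_succ', Nat.sub_add_cancel hF1]
    calc ((d : ZMod p)) * ((n : ZMod p) + ((d : ZMod p) ^ (F - 1) - (d : ZMod p) ^ F)) =
        (d : ZMod p) * n + (d * (d : ZMod p) ^ (F - 1)) - d * (d : ZMod p) ^ F := by ring
      _ = (d : ZMod p) * n + 1 - d * 1 := by rw [e, h1]
      _ = (d : ZMod p) * ((n : ZMod p) - 1) + 1 := by ring
      _ = 0 := h2
  have h4 := (mul_eq_zero.1 h3).resolve_left hz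
  rw [← ZMod.intCast_zmod_eq_zero_iff_dvd _ p] at *
  push_cast
  exact h4

lemma adm_shift (F d : ℕ) (hF : 2 ≤ F) : Admissible (fun _ : Fin 1 => (d : ℤ) ^ (F - 1) - (d : ℤ) ^ F) := by
  obtain ⟨a, ha⟩ : ∃ a : ℤ, a = (d : ℤ) ^ (F - 1) - (d : ℤ) ^ F := ⟨_, rfl⟩
  have heven : (2 : ℤ) ∣ a := by
    have e : a = (d : ℤ) ^ (F - 2) * ((d : ℤ) * (1 - d)) := by
      rw [ha]
      obtain ⟨m, rfl⟩ : ∃ m, F = m + 2 := ⟨F - 2, by omega⟩
      have e1 : m + 2 - 1 = m + 1 := by omega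
      have e2 : m + 2 - 2 = m := by omega
      rw [e1, e2]
      ring
    rw [e]
    apply Dvd.dvd.mul_left
    rcases Int.even_or_odd (d : ℤ) with h | h
    · exact Dvd.dvd.mul_right h.two_dvd _
    · apply Dvd.dvd.mul_left
      obtain ⟨k, hk⟩ := h
      exact ⟨-k, by rw [hk]; ring⟩
  intro p hp
  rw [← ha]
  by_cases h : (p : ℤ) ∣ 1 + a
  · refine ⟨2, fun h2 => ?_, fun _ h2 => ?_⟩
    · have h3 : p ∣ 2 := by exact_mod_cast h2
      have h4 := (Nat.prime_dvd_prime_iff_eq hp Nat.prime_two).1 h3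
      rw [h4] at h
      have h5 : (2 : ℤ) ∣ 1 := (Int.dvd_add_left heven).1 (by exact_mod_cast h)
      norm_num at h5
    · have h3 : (p : ℤ) ∣ 1 := by
        have e : (2 : ℤ) + a = (1 + a) + 1 := by ring
        rw [e] at h2
        exact (Int.dvd_add_right h).1 h2
      have h4 : p ∣ 1 := by exact_mod_cast h3
      exact hp.one_lt.ne' (Nat.dvd_one.1 h4)
  · refine ⟨1, fun h2 => ?_, fun _ => h⟩
    have h4 : p ∣ 1 := by exact_mod_cast h2
    exact hp.one_lt.ne' (Nat.dvd_one.1 h4)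

theorem cop_low : ∃ N₀ : ℕ, ∀ N : ℕ, N₀ ≤ N → ∀ y : ℕ, 1 ≤ y → (y : ℝ) ≤ Real.log N → ∀ d : ℕ,
    (N : ℝ) ≤ (((Icc 1 N).filter Nat.Prime).filter (fun p => (d * (p - 1) + 1).Coprime (primorial y))).card * Real.log N ^ 3 := by
  obtain ⟨c, hc, hlow⟩ := singZ_low 1
  obtain ⟨n1, hn1⟩ := tuple_main 1 1 1 le_rfl
  obtain ⟨n2, hn2⟩ := ev_L' (max 4 (4 / c))
  obtain ⟨n3, hn3⟩ := ev_log' 3 4
  refine ⟨n1 + n2 + n3 + 4, fun N hN y hy1 hyL d => ?_⟩
  have h1 := hn1 N (by omega) y hy1 (by rw [pow_one]; exact hyL)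
    (fun _ => (d : ℤ) ^ ((y + 2).factorial - 1) - (d : ℤ) ^ (y + 2).factorial)
  have hL := hn2 N (by omega)
  have hs := hn3 N (by omega)
  have hF2 : 2 ≤ (y + 2).factorial := le_trans (by omega : 2 ≤ y + 2) (Nat.self_le_factorial _)
  have hsl := hlow _ (adm_shift (y + 2).factorial d hF2) y
  obtain ⟨L, hLd⟩ : ∃ L, L = Real.log N := ⟨_, rfl⟩
  rw [← hLd] at hL hs h1 hyL ⊢
  have hL4 : 4 ≤ L := (le_max_left _ _).trans hL
  have hLc : 4 / c ≤ L := (le_max_right _ _).trans hL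
  have hL0 : 0 < L := by linarith
  have hN0 : (0 : ℝ) < N := by exact_mod_cast (by omega : 0 < N)
  have hV0 := Vz_pos y
  have hVi := Vz_inv_le y hy1
  obtain ⟨C, hCd⟩ : ∃ C, C = ((Icc 1 N).filter Nat.Prime).filter (fun p => (d * (p - 1) + 1).Coprime (primorial y)) := ⟨_, rfl⟩
  rw [← hCd]
  -- upper bound of the sum
  have hub : ∑ n ∈ Icc 1 N, ArithmeticFunction.vonMangoldt n *
      ∏ i : Fin 1, (if ∀ p ∈ pz y, ¬ (p : ℤ) ∣ (n : ℤ) + (fun _ : Fin 1 => (d : ℤ) ^ ((y + 2).factorial - 1) -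
        (d : ℤ) ^ (y + 2).factorial) i then (Vz y)⁻¹ else 0) ≤ L * (C.card * L + 2 * √(N : ℝ) * L) := by
    have hpt : ∀ n ∈ Icc 1 N, ArithmeticFunction.vonMangoldt n *
      ∏ i : Fin 1, (if ∀ p ∈ pz y, ¬ (p : ℤ) ∣ (n : ℤ) + (fun _ : Fin 1 => (d : ℤ) ^ ((y + 2).factorial - 1) -
        (d : ℤ) ^ (y + 2).factorial) i then (Vz y)⁻¹ else 0) ≤
        L * ((if n ∈ C then L else 0) + (if ¬ n.Prime then ArithmeticFunction.vonMangoldt n else 0)) := by
      intro n hn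
      rw [mem_Icc] at hn
      have hnn : 0 ≤ ArithmeticFunction.vonMangoldt n := ArithmeticFunction.vonMangoldt_nonneg
      rw [Fin.prod_univ_one]
      have hVL : (Vz y)⁻¹ ≤ L := hVi.trans hyL
      have hVn : 0 ≤ (Vz y)⁻¹ := by positivity
      have hsub : ((if n ∈ C then L else 0) : ℝ) ≥ 0 := by split_ifs <;> linarith
      by_cases hpr : n.Prime
      · rw [if_neg (not_not.2 hpr), add_zero]
        split_ifs with g1 g2
        · have hlog : ArithmeticFunction.vonMangoldt n ≤ L := by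
            refine ArithmeticFunction.vonMangoldt_le_log.trans ?_
            rw [hLd]
            exact Real.log_le_log (by exact_mod_cast hn.1) (by exact_mod_cast hn.2)
          calc _ ≤ L * L := mul_le_mul hlog hVL hVn hL0.le
            _ = _ := rfl
        · exfalso
          apply g2
          rw [hCd, mem_filter, mem_filter, mem_Icc]
          refine ⟨⟨hn, hpr⟩, ?_⟩
          by_contra hcop
          obtain ⟨p, hp, hp1, hp2⟩ := Nat.Prime.not_coprime_iff_dvd.1 hcop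
          have hpy : p ≤ y := (Nat.Prime.dvd_primorial_iff hp).1 hp2
          exact g1 p (mem_pz.2 ⟨hpy, hp⟩) (dvd_shift y d p hp hpy n hn.1 hp1)
        · rw [mul_zero]
          positivity
        · rw [mul_zero, mul_zero]
      · rw [if_pos hpr]
        have h2 : (if ∀ p ∈ pz y, ¬ (p : ℤ) ∣ (n : ℤ) + (fun _ : Fin 1 => (d : ℤ) ^ ((y + 2).factorial - 1) -
          (d : ℤ) ^ (y + 2).factorial) 0 then (Vz y)⁻¹ else 0) ≤ L := by
          split_ifs
          · exact hVL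
          · exact hL0.le
        calc _ ≤ ArithmeticFunction.vonMangoldt n * L := mul_le_mul_of_nonneg_left h2 hnn
          _ = L * ArithmeticFunction.vonMangoldt n := mul_comm _ _
          _ ≤ _ := mul_le_mul_of_nonneg_left (by linarith) hL0.le
    refine (sum_le_sum hpt).trans ?_
    rw [← mul_sum, sum_add_distrib]
    apply mul_le_mul_of_nonneg_left _ hL0.le
    apply add_le_add
    · rw [← sum_filter, sum_const, nsmul_eq_mul]
      have e : (Icc 1 N).filter (fun n => n ∈ C) = C := by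
        ext n
        rw [mem_filter]
        refine ⟨fun h => h.2, fun h => ⟨?_, h⟩⟩
        rw [hCd] at h
        exact (mem_filter.1 (mem_filter.1 h).1).1
      rw [e]
    · have h2 := Chebyshev.psi_sub_theta_le (x := (N : ℝ)) (by exact_mod_cast (by omega : 1 ≤ N))
      rw [Chebyshev.psi_sub_theta_eq_sum_not_prime, Nat.floor_natCast, sum_filter] at h2
      rw [hLd]
      refine le_trans (le_of_eq ?_) h2
      apply sum_congr _ (fun _ _ => rfl)
      ext n
      rw [mem_Icc, mem_Ioc]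
      omega
  have h2 := (abs_le.1 h1).1
  rw [pow_one] at h2
  have h3 : c * N ≤ singZ (fun _ : Fin 1 => (d : ℤ) ^ ((y + 2).factorial - 1) - (d : ℤ) ^ (y + 2).factorial) y * N :=
    mul_le_mul_of_nonneg_right hsl hN0.le
  have h4 : c * N - N / L ≤ L * (C.card * L + 2 * √(N : ℝ) * L) := by linarith
  have hcL : 4 ≤ c * L := by
    rw [div_le_iff₀ hc] at hLc
    linarith
  -- multiply by L
  have hss : √(N : ℝ) * √(N : ℝ) = N := Real.mul_self_sqrt hN0.le
  have hsq0 : 0 ≤ √(N : ℝ) := Real.sqrt_nonneg _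
  have h5 : (c * N - N / L) * L ≤ L * (C.card * L + 2 * √(N : ℝ) * L) * L := mul_le_mul_of_nonneg_right h4 hL0.le
  have e5 : (c * N - N / L) * L = (c * L) * N - N := by
    field_simp
  have e6 : L * (C.card * L + 2 * √(N : ℝ) * L) * L = C.card * L ^ 3 + 2 * √(N : ℝ) * L ^ 3 := by ring
  rw [e5, e6] at h5
  have h6 : 2 * √(N : ℝ) * L ^ 3 ≤ N := by
    calc 2 * √(N : ℝ) * L ^ 3 ≤ √(N : ℝ) * (4 * L ^ 3) := by nlinarith [mul_nonneg hsq0 (pow_nonneg hL0.le 3)]
      _ ≤ √(N : ℝ) * √(N : ℝ) := mul_le_mul_of_nonneg_left hs hsq0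
      _ = N := hss
  have h7 : 4 * (N : ℝ) ≤ c * L * N := mul_le_mul_of_nonneg_right hcL hN0.le
  linarith

end Pool.Agent.HP27.PG.Pos
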